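import Pool.Agent.MP_c853c5_nt.Z.PMert

/-!
Upper bounds for the long smoothed sums.
-/

set_option autoImplicit false

open Finset Filter

namespace Pool.Agent.MP_c853c5_nt.L

open Pool.Agent.MP_c853c5_nt.Z

/-- the smoothed sum of width `D` around `x` -/
noncomputable def SS (x D : ℝ) (f : ℕ → ℝ) : ℝ :=
  ∑ n ∈ Ioc ⌊x / 2⌋₊ ⌊2 * x⌋₊, f n * gg D (Real.log x - Real.log n)

/-- the long width -/
noncomputable def DB (x : ℝ) : ℝ := x ^ (-(1 / 1000) : ℝ)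

/-- families of arithmetic functions -/
abbrev Fam : Type := ℝ → ArithmeticFunction ℝ

/-- the local density of `g` at `Y ∈ [x ^ a, x ^ b]` is at most `w / log x` -/
def Dens (g : Fam) (a b w : ℝ) : Prop := ∀ ε : ℝ, 0 < ε → ∀ᶠ x : ℝ in atTop, ∀ Y : ℝ,
  x ^ a ≤ Y → Y ≤ x ^ b → SS Y (DB x) (g x) ≤ (w + ε) * (Y / Real.log x)

/-- the logarithmic mass of `f` is at most `μ` -/
def LM (f : Fam) (μ : ℝ) : Prop := ∀ ε : ℝ, 0 < ε → ∀ᶠ x : ℝ in atTop, ∀ X : ℕ,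
  ∑ m ∈ Icc 1 X, f x m / m ≤ μ + ε

/-- `f` is nonnegative -/
def Pos (f : Fam) : Prop := ∀ᶠ x : ℝ in atTop, ∀ m, 0 ≤ f x m

/-- `f` is supported in `[x ^ a, x ^ b]` -/
def Sup (f : Fam) (a b : ℝ) : Prop := ∀ᶠ x : ℝ in atTop, ∀ m : ℕ, f x m ≠ 0 →
  x ^ a ≤ (m : ℝ) ∧ (m : ℝ) ≤ x ^ b

/-- the indicator function of the primes -/
noncomputable def prm : ArithmeticFunction ℝ :=
  ⟨fun n => if n.Prime then 1 else 0, by simp [Nat.not_prime_zero]⟩

def ConvStmt : Prop := ∀ (x D : ℝ) (f g : ArithmeticFunction ℝ), 0 < x →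
  SS x D ⇑(f * g) = ∑ m ∈ Icc 1 ⌊2 * x⌋₊, f m * SS (x / m) D g

def DConvStmt : Prop := ∀ (f g : Fam) (lo hi a b μ w : ℝ), 0 ≤ μ → 0 ≤ w → Pos f → Sup f lo hi →
  LM f μ → Dens g (a - hi) (b - lo) w → Dens (fun x => f x * g x) a b (μ * w)

def LMulStmt : Prop := ∀ (f g : Fam) (μ ν : ℝ), 0 ≤ μ → 0 ≤ ν → Pos f → Pos g → LM f μ →
  LM g ν → LM (fun x => f x * g x) (μ * ν)

/-- primes above `x ^ c` -/
def DPrimeStmt : Prop := ∀ (g : Fam) (a b c : ℝ), 1 / 200 ≤ c →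
  (∀ᶠ x : ℝ in atTop, ∀ n : ℕ, x ^ a / 2 < (n : ℝ) → (n : ℝ) ≤ 2 * x ^ b →
    g x n ≤ if n.Prime ∧ x ^ c ≤ (n : ℝ) then 1 else 0) →
  Dens g a b (1 / max a c)

/-- primes between `x ^ a` and `x ^ b` -/
def LPrimeStmt : Prop := ∀ (f : Fam) (a b : ℝ), 0 < a → a ≤ b →
  (∀ᶠ x : ℝ in atTop, ∀ n : ℕ,
    f x n ≤ if n.Prime ∧ x ^ a < (n : ℝ) ∧ (n : ℝ) ≤ x ^ b then 1 else 0) →
  LM f (Real.log (b / a))

/-- the logarithmic mass from the density of a majorant -/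
def LDensStmt : Prop := ∀ (f g : Fam) (a b a' b' w : ℝ), a' < a → a ≤ b → b < b' → 0 ≤ w →
  Pos g → (∀ᶠ x : ℝ in atTop, ∀ n, f x n ≤ g x n) → Sup f a b → Dens g a' b' w →
  LM f (w * (b - a))

/-- the long sum over primes -/
def LongStmt : Prop := ∀ ε : ℝ, 0 < ε → ∀ᶠ x : ℝ in atTop,
  (1 - ε) * (x / Real.log x) ≤ SS x (DB x) prm

/-- from the short sum to a prime -/
def FinStmt : Prop := ∀ t c θ : ℝ, 0 < t → t < 1 → 0 < c → 1 - t < θ →
  (∀ᶠ x : ℝ in atTop, c * (x / Real.log x) ≤ SS x (x ^ (-t)) prm) →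
  ∀ᶠ y : ℝ in atTop, ∃ p : ℕ, p.Prime ∧ y < p ∧ (p : ℝ) < y + y ^ θ

lemma gg_nonneg {D : ℝ} (h : 0 ≤ D) (z : ℝ) : 0 ≤ gg D z := by
  unfold gg
  positivity

lemma DB_pos {x : ℝ} (hx : 0 < x) : 0 < DB x := Real.rpow_pos_of_pos hx _

lemma mem_win {x : ℝ} (hx : 0 ≤ x) {n : ℕ} :
    n ∈ Ioc ⌊x / 2⌋₊ ⌊2 * x⌋₊ ↔ x / 2 < (n : ℝ) ∧ (n : ℝ) ≤ 2 * x := by
  rw [mem_Ioc, Nat.floor_lt (by positivity), Nat.le_floor_iff (by positivity)]

lemma SS_mono {x D : ℝ} (hx : 0 ≤ x) (hD : 0 ≤ D) {f g : ℕ → ℝ}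
    (h : ∀ n : ℕ, x / 2 < (n : ℝ) → (n : ℝ) ≤ 2 * x → f n ≤ g n) : SS x D f ≤ SS x D g :=
  sum_le_sum fun n hn => mul_le_mul_of_nonneg_right
    (h n ((mem_win hx).1 hn).1 ((mem_win hx).1 hn).2) (gg_nonneg hD _)

lemma SS_add (x D : ℝ) (f g : ℕ → ℝ) : SS x D (fun n => f n + g n) = SS x D f + SS x D g := by
  simp only [SS, add_mul, sum_add_distrib]

lemma SS_zero (x D : ℝ) : SS x D (fun _ => 0) = 0 := by simp [SS]

lemma ev_pos : ∀ᶠ x : ℝ in atTop, 1 < x := eventually_gt_atTop 1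

/-- monotonicity in the function -/
lemma Dens.mono {f g : Fam} {a b w : ℝ} (h : Dens g a b w)
    (hf : ∀ᶠ x : ℝ in atTop, ∀ n : ℕ, x ^ a / 2 < (n : ℝ) → (n : ℝ) ≤ 2 * x ^ b → f x n ≤ g x n) :
    Dens f a b w := fun ε hε => by
  filter_upwards [h ε hε, hf, ev_pos] with x h1 h2 hx Y ha hb
  have x0 : 0 < x := by linarith
  have y0 : 0 < Y := (Real.rpow_pos_of_pos x0 a).trans_le ha
  exact (SS_mono y0.le (DB_pos x0).le fun n h3 h4 => h2 n (by linarith) (by linarith)).trans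
    (h1 Y ha hb)

/-- monotonicity in the range and the bound -/
lemma Dens.weak {g : Fam} {a b w a' b' w' : ℝ} (h : Dens g a b w) (ha : a ≤ a') (hb : b' ≤ b)
    (hw : w ≤ w') : Dens g a' b' w' := fun ε hε => by
  filter_upwards [h ε hε, ev_pos] with x h1 hx Y h2 h3
  have y0 : 0 < Y := (Real.rpow_pos_of_pos (by linarith) a').trans_le h2
  refine (h1 Y ((Real.rpow_le_rpow_of_exponent_le hx.le ha).trans h2)
    (h3.trans (Real.rpow_le_rpow_of_exponent_le hx.le hb))).trans ?_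
  exact mul_le_mul_of_nonneg_right (by linarith) (div_nonneg y0.le (Real.log_pos hx).le)

lemma Dens.union {g : Fam} {a b c w : ℝ} (h : Dens g a b w) (h' : Dens g b c w) :
    Dens g a c w := fun ε hε => by
  filter_upwards [h ε hε, h' ε hε] with x h1 h2 Y h3 h4
  exact (le_total Y (x ^ b)).elim (h1 Y h3) fun h5 => h2 Y h5 h4

lemma Dens.add {f g : Fam} {a b v w : ℝ} (h : Dens f a b v) (h' : Dens g a b w) :
    Dens (fun x => f x + g x) a b (v + w) := fun ε hε => by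
  filter_upwards [h (ε / 2) (by linarith), h' (ε / 2) (by linarith)] with x h1 h2 Y h3 h4
  have e : SS Y (DB x) ⇑(f x + g x) = SS Y (DB x) (f x) + SS Y (DB x) (g x) := SS_add _ _ _ _
  rw [e]
  linarith [h1 Y h3 h4, h2 Y h3 h4]

lemma Dens.zero {g : Fam} {a b : ℝ}
    (h : ∀ᶠ x : ℝ in atTop, ∀ n : ℕ, x ^ a / 2 < (n : ℝ) → (n : ℝ) ≤ 2 * x ^ b → g x n ≤ 0) :
    Dens g a b 0 := fun ε hε => by
  filter_upwards [h, ev_pos] with x h2 hx Y ha hb
  have x0 : 0 < x := by linarith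
  have y0 : 0 < Y := (Real.rpow_pos_of_pos x0 a).trans_le ha
  refine ((SS_mono (g := fun _ => 0) y0.le (DB_pos x0).le fun n h3 h4 =>
    h2 n (by linarith) (by linarith)).trans_eq (SS_zero _ _)).trans ?_
  exact mul_nonneg (by linarith) (div_nonneg y0.le (Real.log_pos hx).le)

/-- an empty range -/
lemma Dens.empty (g : Fam) {a b : ℝ} (h : b < a) (w : ℝ) : Dens g a b w := fun _ _ => by
  filter_upwards [ev_pos] with x hx Y ha hb
  exact absurd (ha.trans hb) (Real.rpow_lt_rpow_of_exponent_lt hx h).not_ge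

lemma LM.mono {f g : Fam} {μ ν : ℝ} (h : LM g μ) (hf : ∀ᶠ x : ℝ in atTop, ∀ n, f x n ≤ g x n)
    (hμ : μ ≤ ν) : LM f ν := fun ε hε => by
  filter_upwards [h ε hε, hf] with x h1 h2 X
  exact (sum_le_sum fun n _ => div_le_div_of_nonneg_right (h2 n) (Nat.cast_nonneg n)).trans
    ((h1 X).trans (by linarith))

lemma LM.add {f g : Fam} {μ ν : ℝ} (h : LM f μ) (h' : LM g ν) :
    LM (fun x => f x + g x) (μ + ν) := fun ε hε => by
  filter_upwards [h (ε / 2) (by linarith), h' (ε / 2) (by linarith)] with x h1 h2 X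
  simp only [ArithmeticFunction.add_apply, add_div, sum_add_distrib]
  linarith [h1 X, h2 X]

lemma LM.one : LM (fun _ => 1) 1 := fun ε hε => Eventually.of_forall fun x X => by
  have : ∑ m ∈ Icc 1 X, (1 : ArithmeticFunction ℝ) m / (m : ℝ) ≤ 1 := by
    simp only [ArithmeticFunction.one_apply, ite_div, zero_div, sum_ite_eq']
    split_ifs <;> simp
  linarith

lemma Pos.mul {f g : Fam} (h : Pos f) (h' : Pos g) : Pos fun x => f x * g x := by
  filter_upwards [h, h'] with x h1 h2 m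
  rw [ArithmeticFunction.mul_apply]
  exact sum_nonneg fun p _ => mul_nonneg (h1 _) (h2 _)

lemma Pos.one : Pos fun _ => 1 := Eventually.of_forall fun _ m => by
  rw [ArithmeticFunction.one_apply]
  split_ifs <;> norm_num

lemma Sup.one : Sup (fun _ => 1) 0 0 := Eventually.of_forall fun x m hm => by
  rw [ArithmeticFunction.one_apply] at hm
  split_ifs at hm with h
  · simp [h]
  · exact absurd rfl hm

lemma Sup.mul {f g : Fam} {a b c d : ℝ} (h : Sup f a b) (h' : Sup g c d) :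
    Sup (fun x => f x * g x) (a + c) (b + d) := by
  filter_upwards [h, h', ev_pos] with x h1 h2 hx m hm
  have x0 : 0 < x := by linarith
  rw [ArithmeticFunction.mul_apply] at hm
  obtain ⟨p, hp, hne⟩ := exists_ne_zero_of_sum_ne_zero hm
  obtain ⟨a1, a2⟩ := h1 _ (left_ne_zero_of_mul hne)
  obtain ⟨a3, a4⟩ := h2 _ (right_ne_zero_of_mul hne)
  rw [← (Nat.mem_divisorsAntidiagonal.1 hp).1, Nat.cast_mul, Real.rpow_add x0, Real.rpow_add x0]
  exact ⟨mul_le_mul a1 a3 (by positivity) (by positivity),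
    mul_le_mul a2 a4 (by positivity) (by positivity)⟩

lemma Sup.weak {f : Fam} {a b a' b' : ℝ} (h : Sup f a b) (ha : a' ≤ a) (hb : b ≤ b') :
    Sup f a' b' := by
  filter_upwards [h, ev_pos] with x h1 hx m hm
  exact ⟨(Real.rpow_le_rpow_of_exponent_le hx.le ha).trans (h1 m hm).1,
    (h1 m hm).2.trans (Real.rpow_le_rpow_of_exponent_le hx.le hb)⟩

end Pool.Agent.MP_c853c5_nt.L
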