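import Pool.Agent.MP_c853c5_nt.L.Defs

/-!
Smoothed sums and logarithmic masses of convolutions.
-/

set_option autoImplicit false

open Finset Filter

namespace Pool.Agent.MP_c853c5_nt.L

open Pool.Agent.MP_c853c5_nt.Z

lemma swap_Conv (W : Finset ℕ) (N : ℕ) (hW : ∀ n ∈ W, 1 ≤ n ∧ n ≤ N) (F : ℕ → ℕ → ℝ) :
    ∑ n ∈ W, ∑ p ∈ n.divisorsAntidiagonal, F p.1 p.2 =
      ∑ m ∈ Icc 1 N, ∑ k ∈ (Icc 1 N).filter (fun k => m * k ∈ W), F m k := by
  rw [sum_sigma', sum_sigma']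
  refine sum_nbij' (fun z => ⟨z.2.1, z.2.2⟩) (fun z => ⟨z.1 * z.2, (z.1, z.2)⟩) ?_ ?_ ?_ ?_ ?_
  · rintro ⟨n, a, b⟩ hz
    simp only [mem_sigma, Nat.mem_divisorsAntidiagonal] at hz
    obtain ⟨h1, h2, h3⟩ := hz
    subst h2
    have h4 := hW _ h1
    have ha : 0 < a := Nat.pos_of_mul_pos_right h4.1
    have hb : 0 < b := Nat.pos_of_mul_pos_left h4.1
    simp only [mem_sigma, mem_filter, mem_Icc]
    exact ⟨⟨ha, (Nat.le_mul_of_pos_right a hb).trans h4.2⟩,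
      ⟨hb, (Nat.le_mul_of_pos_left b ha).trans h4.2⟩, h1⟩
  · rintro ⟨a, b⟩ hz
    simp only [mem_sigma, mem_filter, mem_Icc] at hz
    simp only [mem_sigma, Nat.mem_divisorsAntidiagonal, true_and]
    exact ⟨hz.2.2, by have := (hW _ hz.2.2).1; omega⟩
  · rintro ⟨n, a, b⟩ hz
    simp only [mem_sigma, Nat.mem_divisorsAntidiagonal] at hz
    obtain ⟨-, h2, -⟩ := hz
    subst h2
    rfl
  · rintro ⟨a, b⟩ _
    rfl
  · rintro ⟨n, a, b⟩ _
    rfl

theorem conv : ConvStmt := by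
  intro x D f g hx
  have hW : ∀ n ∈ Ioc ⌊x / 2⌋₊ ⌊2 * x⌋₊, 1 ≤ n ∧ n ≤ ⌊2 * x⌋₊ := fun n hn => by
    rw [mem_Ioc] at hn
    omega
  have e := swap_Conv _ _ hW fun m k => f m * (g k * gg D (Real.log x - Real.log (m * k : ℕ)))
  unfold SS
  refine (sum_congr rfl fun n _ => ?_).trans (e.trans (sum_congr rfl fun m hm => ?_))
  · rw [ArithmeticFunction.mul_apply, sum_mul]
    refine sum_congr rfl fun p hp => ?_
    rw [(Nat.mem_divisorsAntidiagonal.1 hp).1, mul_assoc]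
  · have m1 : (1 : ℝ) ≤ m := by exact_mod_cast (mem_Icc.1 hm).1
    have m0 : (0 : ℝ) < m := by linarith
    have y0 : 0 < x / m := div_pos hx m0
    rw [mul_sum]
    refine sum_congr ?_ fun k hk => ?_
    · ext k
      rw [mem_filter, mem_win hx.le, mem_win y0.le, mem_Icc, Nat.cast_mul,
        Nat.le_floor_iff (by positivity), ← mul_div_assoc, le_div_iff₀ m0, div_right_comm,
        div_lt_iff₀ m0, mul_comm (k : ℝ) m]
      refine ⟨fun h => h.2, fun h => ⟨⟨?_, ?_⟩, h⟩⟩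
      · rcases Nat.eq_zero_or_pos k with rfl | hk
        · have := h.1
          simp only [Nat.cast_zero, mul_zero] at this
          linarith
        · exact hk
      · have k0 : (0 : ℝ) ≤ k := Nat.cast_nonneg k
        nlinarith [h.2]
    · have k0 : (0 : ℝ) < k := lt_of_le_of_lt (by positivity) ((mem_win y0.le).1 hk).1
      rw [Nat.cast_mul, Real.log_mul m0.ne' k0.ne', Real.log_div hx.ne' m0.ne', sub_sub]

lemma eps_Conv {μ w ε : ℝ} (hμ : 0 ≤ μ) (hw : 0 ≤ w) (hε : 0 < ε) :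
    ∃ e : ℝ, 0 < e ∧ (μ + e) * (w + e) ≤ μ * w + ε := by
  have h0 : 0 < μ + w + 1 := by linarith
  refine ⟨min 1 (ε / (μ + w + 1)), lt_min one_pos (div_pos hε h0), ?_⟩
  have h1 : min 1 (ε / (μ + w + 1)) ≤ 1 := min_le_left _ _
  have h2 : min 1 (ε / (μ + w + 1)) * (μ + w + 1) ≤ ε := (le_div_iff₀ h0).1 (min_le_right _ _)
  have h3 : 0 < min 1 (ε / (μ + w + 1)) := lt_min one_pos (div_pos hε h0)
  nlinarith

theorem dconv : DConvStmt := by
  intro f g lo hi a b μ w hμ hw hP hS hL hD ε hε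
  obtain ⟨e, e0, he⟩ := eps_Conv hμ hw hε
  filter_upwards [hP, hS, hL e e0, hD e e0, ev_pos] with x h1 h2 h3 h4 hx Y ha hb
  have x0 : 0 < x := by linarith
  have y0 : 0 < Y := (Real.rpow_pos_of_pos x0 a).trans_le ha
  have l0 : 0 ≤ Y / Real.log x := div_nonneg y0.le (Real.log_pos hx).le
  have t : ∀ m ∈ Icc 1 ⌊2 * Y⌋₊, f x m * SS (Y / m) (DB x) (g x) ≤
      f x m / m * ((w + e) * (Y / Real.log x)) := fun m hm => by
    rcases eq_or_ne (f x m) 0 with h | h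
    · simp [h]
    obtain ⟨a1, a2⟩ := h2 m h
    have m0 : (0 : ℝ) < m := (Real.rpow_pos_of_pos x0 lo).trans_le a1
    have b1 : x ^ (a - hi) ≤ Y / m := by
      rw [Real.rpow_sub x0]
      exact div_le_div₀ y0.le ha m0 a2
    have b2 : Y / m ≤ x ^ (b - lo) := by
      rw [Real.rpow_sub x0]
      exact div_le_div₀ (Real.rpow_pos_of_pos x0 b).le hb (Real.rpow_pos_of_pos x0 lo) a1
    refine (mul_le_mul_of_nonneg_left (h4 _ b1 b2) (h1 m)).trans_eq ?_
    ring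
  refine (conv Y (DB x) (f x) (g x) y0).trans_le ((sum_le_sum t).trans ?_)
  rw [← sum_mul]
  refine (mul_le_mul_of_nonneg_right (h3 _) (mul_nonneg (by linarith) l0)).trans ?_
  rw [← mul_assoc]
  exact mul_le_mul_of_nonneg_right he l0

theorem lmul : LMulStmt := by
  intro f g μ ν hμ hν hf hg hL hM ε hε
  obtain ⟨e, e0, he⟩ := eps_Conv hμ hν hε
  filter_upwards [hf, hg, hL e e0, hM e e0] with x h1 h2 h3 h4 X
  have q := swap_Conv (Icc 1 X) X (fun n hn => mem_Icc.1 hn) fun m k => f x m / m * (g x k / k)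
  have q1 : ∑ n ∈ Icc 1 X, (f x * g x) n / (n : ℝ) =
      ∑ n ∈ Icc 1 X, ∑ p ∈ n.divisorsAntidiagonal, f x p.1 / p.1 * (g x p.2 / p.2) := by
    refine sum_congr rfl fun n _ => ?_
    rw [ArithmeticFunction.mul_apply, sum_div]
    refine sum_congr rfl fun p hp => ?_
    rw [← (Nat.mem_divisorsAntidiagonal.1 hp).1, Nat.cast_mul, mul_div_mul_comm]
  have n1 : ∀ m : ℕ, 0 ≤ f x m / m := fun m => div_nonneg (h1 m) (Nat.cast_nonneg m)
  have n2 : ∀ m : ℕ, 0 ≤ g x m / m := fun m => div_nonneg (h2 m) (Nat.cast_nonneg m)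
  have q2 : ∑ m ∈ Icc 1 X, ∑ k ∈ (Icc 1 X).filter (fun k => m * k ∈ Icc 1 X),
      f x m / m * (g x k / k) ≤ (∑ m ∈ Icc 1 X, f x m / m) * ∑ k ∈ Icc 1 X, g x k / k := by
    rw [sum_mul_sum]
    exact sum_le_sum fun m _ => sum_le_sum_of_subset_of_nonneg (filter_subset _ _)
      fun k _ _ => mul_nonneg (n1 m) (n2 k)
  refine (q1.trans q).trans_le (q2.trans (le_trans ?_ he))
  exact mul_le_mul (h3 X) (h4 X) (sum_nonneg fun k _ => n2 k) (by linarith)

end Pool.Agent.MP_c853c5_nt.L
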