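import Mathlib

/-!
A majorant of the function of Buchstab and its primitive.
-/

set_option autoImplicit false

namespace Pool.Agent.MP_c853c5_nt.L

/-- the limiting constant -/
noncomputable def cc : ℝ := 709 / 1250

/-- the decreasing majorant -/
noncomputable def qq (s : ℝ) : ℝ := max cc (1 / max s 1)

/-- the primitive of the majorant that vanishes at `1` -/
noncomputable def Om (s : ℝ) : ℝ := qq s * s - 1 - Real.log (qq s)

lemma cc_pos : 0 < cc := by unfold cc; norm_num

lemma cc_le_one : cc ≤ 1 := by unfold cc; norm_num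

lemma cc_log : -Real.log cc ≤ cc := by
  rw [← Real.log_inv, Real.log_le_iff_le_exp (inv_pos.2 cc_pos)]
  refine le_trans ?_ (Real.sum_le_exp_of_nonneg cc_pos.le 6)
  simp only [Finset.sum_range_succ, Finset.sum_range_zero, Nat.factorial, cc]
  norm_num

lemma cc_le_qq (s : ℝ) : cc ≤ qq s := le_max_left _ _

lemma qq_pos (s : ℝ) : 0 < qq s := cc_pos.trans_le (cc_le_qq s)

lemma qq_le_one (s : ℝ) : qq s ≤ 1 :=
  max_le cc_le_one (div_le_one_of_le₀ (le_max_right _ _) (zero_le_one.trans (le_max_right _ _)))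

lemma qq_anti {s t : ℝ} (h : s ≤ t) : qq t ≤ qq s :=
  max_le_max le_rfl (one_div_le_one_div_of_le (zero_lt_one.trans_le (le_max_right _ _))
    (max_le_max h le_rfl))

lemma inv_le_qq {s : ℝ} (h : 1 ≤ s) : 1 / s ≤ qq s := by
  rw [qq, max_eq_left h]
  exact le_max_right _ _

lemma qq_of_le {s : ℝ} (h : s ≤ 1) : qq s = 1 := by
  rw [qq, max_eq_right h, div_one, max_eq_right cc_le_one]

/-- tangent lines -/
lemma Om_le (s : ℝ) {q : ℝ} (h1 : cc ≤ q) (h2 : q ≤ 1) : Om s ≤ q * s - 1 - Real.log q := by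
  have q0 := cc_pos.trans_le h1
  rcases le_total s 1 with h | h
  · rw [Om, qq_of_le h, Real.log_one]
    have := Real.log_le_sub_one_of_pos q0
    nlinarith [mul_nonneg (sub_nonneg.2 h) (sub_nonneg.2 h2)]
  have s0 : 0 < s := by linarith
  rcases le_total cc (1 / s) with h3 | h3
  · have e : qq s = 1 / s := by rw [qq, max_eq_left h, max_eq_right h3]
    have := Real.log_le_sub_one_of_pos (mul_pos q0 s0)
    rw [Real.log_mul q0.ne' s0.ne'] at this
    rw [Om, e, one_div, Real.log_inv, inv_mul_cancel₀ s0.ne']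
    linarith
  · have e : qq s = cc := by rw [qq, max_eq_left h, max_eq_left h3]
    have a1 := Real.log_le_sub_one_of_pos (div_pos q0 cc_pos)
    rw [Real.log_div q0.ne' cc_pos.ne'] at a1
    rw [div_le_iff₀ s0] at h3
    have a2 : q / cc - 1 ≤ (q - cc) * s := by
      rw [div_sub_one cc_pos.ne', div_le_iff₀ cc_pos, mul_assoc]
      exact le_mul_of_one_le_right (by linarith) (by linarith)
    rw [Om, e]
    linarith

lemma Om_sub_ge (s t : ℝ) : qq s * (s - t) ≤ Om s - Om t := by
  have := Om_le t (cc_le_qq s) (qq_le_one s)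
  rw [Om, mul_sub]
  linarith

lemma Om_mono {s t : ℝ} (h : t ≤ s) : Om t ≤ Om s := by
  linarith [Om_sub_ge s t, mul_nonneg (qq_pos s).le (sub_nonneg.2 h)]

lemma Om_sub_le (s t : ℝ) : Om s - Om t ≤ qq t * (s - t) := by
  linarith [Om_sub_ge t s]

lemma Om_lip {s t d : ℝ} (hd : 0 ≤ d) (h : s - d ≤ t) : Om s - d ≤ Om t := by
  have h1 := Om_sub_le s (s - d)
  have h2 := Om_mono h
  have h3 := mul_le_of_le_one_left hd (qq_le_one (s - d))
  rw [sub_sub_cancel] at h1
  linarith

lemma Om_one : Om 1 = 0 := by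
  rw [Om, qq_of_le le_rfl]
  simp

lemma Om_step (u : ℝ) : 1 + Om (u - 1) ≤ cc * u := by
  linarith [Om_le (u - 1) le_rfl cc_le_one, cc_log]

lemma log_le_Om {s : ℝ} (h : 0 < s) : Real.log s ≤ Om s := by
  have := Real.log_le_sub_one_of_pos (mul_pos (qq_pos s) h)
  rw [Real.log_mul (qq_pos s).ne' h.ne'] at this
  rw [Om]
  linarith

end Pool.Agent.MP_c853c5_nt.L
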