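import Pool.Agent.MP_c853c5_nt.L.Defs
import Pool.Agent.MP_c853c5_nt.L.Om
import Pool.Agent.MP_c853c5_nt.S.Basic

/-!
The density of numbers with a restricted least prime factor.
-/

set_option autoImplicit false

open Finset Filter

namespace Pool.Agent.MP_c853c5_nt.L

open Pool.Agent.MP_c853c5_nt.S (Rough Blk bf)

open Classical in
/-- the indicator function of a set of integers above one -/
noncomputable def ind (P : ℕ → Prop) : ArithmeticFunction ℝ :=
  ⟨fun n => if 1 < n ∧ P n then 1 else 0, by simp⟩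

lemma ind_pos {P : ℕ → Prop} {n : ℕ} (h : 1 < n) (h' : P n) : ind P n = 1 := if_pos ⟨h, h'⟩

lemma ind_nonneg (P : ℕ → Prop) (n : ℕ) : 0 ≤ ind P n := by
  simp only [ind, ArithmeticFunction.coe_mk]
  split_ifs <;> norm_num

lemma ind_le {P : ℕ → Prop} {n : ℕ} {y : ℝ} (h0 : 0 ≤ y) (h : 1 < n → P n → 1 ≤ y) :
    ind P n ≤ y := by
  simp only [ind, ArithmeticFunction.coe_mk]
  split_ifs with h1
  exacts [h h1.1 h1.2, h0]

/-- rough numbers -/
noncomputable def RR (a : ℝ) : Fam := fun x => ind (Rough x a)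

/-- size in `(x ^ l, x ^ h]`, least prime factor in `(x ^ a, x ^ b]` -/
noncomputable def MM (l h a b : ℝ) : Fam := fun x =>
  ind fun n => (x ^ l < (n : ℝ) ∧ (n : ℝ) ≤ x ^ h) ∧ Rough x a n ∧ ¬ Rough x b n

/-- the same, composite -/
noncomputable def CC (a b : ℝ) : Fam := fun x =>
  ind fun n => ¬ n.Prime ∧ Rough x a n ∧ ¬ Rough x b n

/-- primes -/
noncomputable def PB (a b : ℝ) : Fam := fun x =>
  ind fun n => n.Prime ∧ x ^ a < (n : ℝ) ∧ (n : ℝ) ≤ x ^ b

lemma ev_two {a b : ℝ} (h : a < b) : ∀ᶠ x : ℝ in atTop, 2 * x ^ a < x ^ b := by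
  filter_upwards [(tendsto_rpow_atTop (sub_pos.2 h)).eventually_gt_atTop 2, ev_pos] with x h1 hx
  have x0 : 0 < x := by linarith
  have e : x ^ b = x ^ (b - a) * x ^ a := by rw [← Real.rpow_add x0, sub_add_cancel]
  rw [e]
  exact mul_lt_mul_of_pos_right h1 (Real.rpow_pos_of_pos x0 a)

lemma minFac_le {x b : ℝ} {n : ℕ} (h : ¬ Rough x b n) : (n.minFac : ℝ) ≤ x ^ b := by
  unfold Rough at h
  push Not at h
  obtain ⟨p, h1, h2, h3⟩ := h
  exact le_trans (by exact_mod_cast Nat.minFac_le_of_dvd h1.two_le h2) h3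

lemma CC_le (x a b : ℝ) (n : ℕ) : CC a b x n ≤ (PB a b x * RR a x) n := by
  rw [ArithmeticFunction.mul_apply]
  have h0 : ∀ p ∈ n.divisorsAntidiagonal, 0 ≤ PB a b x p.1 * RR a x p.2 := fun p _ =>
    mul_nonneg (ind_nonneg _ _) (ind_nonneg _ _)
  refine ind_le (sum_nonneg h0) fun h1 ⟨h2, h3, h4⟩ => ?_
  have hp := Nat.minFac_prime h1.ne'
  obtain ⟨k, hk⟩ := Nat.minFac_dvd n
  have k1 : 1 < k := by
    rcases k with _ | _ | k
    · omega
    · exact absurd (by rw [hk, zero_add, mul_one]; exact hp) h2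
    · omega
  refine le_trans (le_of_eq ?_) (single_le_sum h0 (a := (n.minFac, k))
    (Nat.mem_divisorsAntidiagonal.2 ⟨hk.symm, by omega⟩))
  rw [PB, RR, ind_pos hp.one_lt ⟨hp, h3 _ hp (Nat.minFac_dvd n), minFac_le h4⟩,
    ind_pos k1 fun p h5 h6 => h3 p h5 (hk ▸ h6.mul_left _), one_mul]

lemma CC_split (x a b c : ℝ) (n : ℕ) : CC a c x n ≤ (CC a b x + CC b c x) n := by
  rw [ArithmeticFunction.add_apply]
  refine ind_le (add_nonneg (ind_nonneg _ _) (ind_nonneg _ _)) fun h1 ⟨h2, h3, h4⟩ => ?_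
  by_cases h : Rough x b n
  · exact le_add_of_nonneg_of_le (ind_nonneg _ _) (ind_pos h1 ⟨h2, h, h4⟩).ge
  · exact le_add_of_le_of_nonneg (ind_pos h1 ⟨h2, h3, h⟩).ge (ind_nonneg _ _)

lemma sq_lt {x a : ℝ} (hx : 0 < x) {n : ℕ} (h1 : 1 < n) (h2 : ¬ n.Prime) (h3 : Rough x a n) :
    x ^ (2 * a) < n := by
  have a1 := h3 _ (Nat.minFac_prime h1.ne') (Nat.minFac_dvd n)
  have a2 : ((n.minFac : ℕ) : ℝ) ^ 2 ≤ n := by
    exact_mod_cast Nat.minFac_sq_le_self (by omega) h2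
  rw [mul_comm, Real.rpow_mul hx.le, Real.rpow_two]
  exact (pow_lt_pow_left₀ a1 (by positivity) two_ne_zero).trans_le a2

lemma CC_zero {a b γ₁ γ₂ : ℝ} (h : γ₂ < 2 * a) : Dens (CC a b) γ₁ γ₂ 0 := by
  refine Dens.zero ?_
  filter_upwards [ev_two h, ev_pos] with x h1 hx n _ h3
  exact ind_le le_rfl fun h4 ⟨h5, h6, _⟩ =>
    absurd (h3.trans_lt h1) (sq_lt (by linarith) h4 h5 h6).not_gt

lemma MM_le {x : ℝ} (l h a b : ℝ) (n : ℕ) :
    MM l h a b x n ≤ (PB (max a l) b x + CC a b x) n := by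
  rw [ArithmeticFunction.add_apply]
  refine ind_le (add_nonneg (ind_nonneg _ _) (ind_nonneg _ _)) fun h1 ⟨h2, h3, h4⟩ => ?_
  by_cases h : n.Prime
  · refine le_add_of_le_of_nonneg (ind_pos h1 ⟨h, ?_, h.minFac_eq ▸ minFac_le h4⟩).ge
      (ind_nonneg _ _)
    rcases max_choice a l with e | e <;> rw [e]
    exacts [h3 n h dvd_rfl, h2.1]
  · exact le_add_of_nonneg_of_le (ind_nonneg _ _) (ind_pos h1 ⟨h, h3, h4⟩).ge

lemma rough_lt {x a : ℝ} {n : ℕ} (h1 : 1 < n) (h3 : Rough x a n) : x ^ a < n :=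
  (h3 _ (Nat.minFac_prime h1.ne') (Nat.minFac_dvd n)).trans_le
    (by exact_mod_cast Nat.minFac_le (by omega))

lemma PB_pos (a b : ℝ) : Pos (PB a b) := Eventually.of_forall fun _ _ => ind_nonneg _ _

lemma PB_sup (a b : ℝ) : Sup (PB a b) a b := Eventually.of_forall fun x m hm => by
  by_contra h
  exact hm (le_antisymm (ind_le le_rfl fun _ h2 => absurd ⟨h2.2.1.le, h2.2.2⟩ h) (ind_nonneg _ _))

lemma PB_lm (hP : LPrimeStmt) {a b : ℝ} (ha : 0 < a) (hab : a ≤ b) :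
    LM (PB a b) (Real.log (b / a)) :=
  hP _ a b ha hab (Eventually.of_forall fun x n => ind_le (by split_ifs <;> norm_num)
    fun _ h => (if_pos h).ge)

lemma Dens.of_eps {g : Fam} {a b w : ℝ} (h : ∀ ε : ℝ, 0 < ε → Dens g a b (w + ε)) :
    Dens g a b w := fun ε hε => by
  filter_upwards [h (ε / 2) (by linarith) (ε / 2) (by linarith)] with x h1 Y h2 h3
  exact (h1 Y h2 h3).trans_eq (by ring)

/-- from short ranges to long ranges -/
lemma Dens.of_local {g : Fam} {a b w : ℝ} (h : ∀ ε : ℝ, 0 < ε → ∃ η : ℝ, 0 < η ∧ ∀ γ₁ γ₂ : ℝ,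
    a ≤ γ₁ → γ₁ ≤ γ₂ → γ₂ ≤ b → γ₂ - γ₁ ≤ η → Dens g γ₁ γ₂ (w + ε)) : Dens g a b w := by
  refine Dens.of_eps fun ε hε => ?_
  obtain ⟨η, hη, h⟩ := h ε hε
  have key : ∀ n : ℕ, ∀ γ : ℝ, γ ≤ b → γ - a ≤ n * η → Dens g a γ (w + ε) := by
    intro n
    induction n with
    | zero =>
      intro γ h1 h2
      rcases lt_or_ge γ a with h3 | h3
      · exact Dens.empty g h3 _
      · exact h a γ le_rfl h3 h1 (by simp at h2; linarith)
    | succ n ih =>
      intro γ h1 h2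
      rcases lt_or_ge γ a with h3 | h3
      · exact Dens.empty g h3 _
      rcases le_total (γ - a) η with h4 | h4
      · exact h a γ le_rfl h3 h1 h4
      · push_cast at h2
        exact (ih (γ - η) (by linarith) (by linarith)).union
          (h _ γ (by linarith) (by linarith) h1 (by linarith))
  obtain ⟨n, hn⟩ := exists_nat_ge ((b - a) / η)
  exact key n b le_rfl ((div_le_iff₀ hη).1 hn)

/-- the inductive hypothesis -/
def Hyp (a B : ℝ) : Prop := ∀ a' β₁ β₂ : ℝ, a ≤ a' → β₂ ≤ B - a →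
  Dens (RR a') β₁ β₂ (qq (β₁ / a') / a')

section

variable (hC : DConvStmt) (hP : LPrimeStmt) (hD : DPrimeStmt)
include hC hP

lemma chain {a B r γ₁ γ₂ : ℝ} (ha : 0 < a) (H : Hyp a B) (hr : 1 ≤ r) (h1 : 0 < γ₁)
    (h2 : γ₂ ≤ B) (J : ℕ) : Dens (CC a (a * r ^ J)) γ₁ γ₂
      (r * (Om (γ₁ / a - r) - Om (γ₁ / (a * r ^ J) - r)) / γ₁) := by
  induction J with
  | zero =>
    rw [pow_zero, mul_one, sub_self, mul_zero, zero_div]
    exact Dens.zero (Eventually.of_forall fun x n _ _ => ind_le le_rfl fun _ h =>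
      absurd h.2.1 h.2.2)
  | succ J ih =>
    obtain ⟨c, hc⟩ : ∃ c, c = a * r ^ J := ⟨_, rfl⟩
    have c1 : a ≤ c := hc ▸ le_mul_of_one_le_right ha.le (one_le_pow₀ hr)
    have c0 : 0 < c := ha.trans_le c1
    have r0 : 0 < r := by linarith
    rw [pow_succ, ← mul_assoc, ← hc]
    rw [← hc] at ih
    have c2 : c ≤ c * r := le_mul_of_one_le_right c0.le hr
    have l1 := PB_lm hP c0 c2
    rw [mul_div_cancel_left₀ _ c0.ne'] at l1
    have d1 := hC (PB c (c * r)) (RR c) c (c * r) γ₁ γ₂ _ _ (Real.log_nonneg hr)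
      (div_nonneg (qq_pos _).le c0.le) (PB_pos _ _) (PB_sup _ _) l1
      (H c _ _ c1 (by linarith))
    have d2 : Dens (CC c (c * r)) γ₁ γ₂ _ :=
      d1.mono (Eventually.of_forall fun x n _ _ => CC_le x _ _ n)
    refine ((ih.add d2).mono
      (Eventually.of_forall fun x n _ _ => CC_split x _ c _ n)).weak le_rfl le_rfl ?_
    have e1 : (γ₁ - c * r) / c = γ₁ / c - r := by field_simp
    have a1 := Om_sub_ge (γ₁ / c - r) (γ₁ / (c * r) - r)
    have a2 := mul_le_mul_of_nonneg_right (Real.log_le_sub_one_of_pos r0)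
      (div_nonneg (qq_pos (γ₁ / c - r)).le c0.le)
    have a3 : (r - 1) * (qq (γ₁ / c - r) / c) =
        r * (qq (γ₁ / c - r) * (γ₁ / c - r - (γ₁ / (c * r) - r))) / γ₁ := by
      field_simp
      ring
    have a4 := div_le_div_of_nonneg_right (mul_le_mul_of_nonneg_left a1 r0.le) h1.le
    have a5 : r * (Om (γ₁ / a - r) - Om (γ₁ / (c * r) - r)) / γ₁ =
        r * (Om (γ₁ / a - r) - Om (γ₁ / c - r)) / γ₁ +
          r * (Om (γ₁ / c - r) - Om (γ₁ / (c * r) - r)) / γ₁ := by ring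
    rw [e1]
    linarith

lemma chain' {a b B δ γ₁ γ₂ : ℝ} (ha : 0 < a) (hab : a ≤ b) (H : Hyp a B) (hδ : 0 < δ)
    (h1 : 0 < γ₁) (h2 : γ₂ ≤ B) : Dens (CC a b) γ₁ γ₂
      ((1 + δ) * (max 0 (Om (γ₁ / a - 1) - Om (γ₁ / b - 1)) + δ) / γ₁) := by
  obtain ⟨J, hJ⟩ := pow_unbounded_of_one_lt (b / a) (show 1 < 1 + δ by linarith)
  have q1 : 1 ≤ b / a := (one_le_div ha).2 hab
  have J0 : J ≠ 0 := by
    rintro rfl
    rw [pow_zero] at hJ
    linarith
  obtain ⟨r, hr⟩ : ∃ r : ℝ, r = (b / a) ^ ((J : ℝ)⁻¹) := ⟨_, rfl⟩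
  have r1 : 1 ≤ r := hr ▸ Real.one_le_rpow q1 (by positivity)
  have r2 : r ^ J = b / a := by rw [hr, Real.rpow_inv_natCast_pow (by linarith) J0]
  have r3 : r ≤ 1 + δ := le_of_pow_le_pow_left₀ J0 (by linarith) (r2 ▸ hJ.le)
  have := chain hC hP ha H r1 h1 h2 J
  rw [r2, mul_div_cancel₀ _ ha.ne'] at this
  refine this.weak le_rfl le_rfl (div_le_div_of_nonneg_right ?_ h1.le)
  have a1 : Om (γ₁ / a - r) ≤ Om (γ₁ / a - 1) := Om_mono (by linarith)
  have a2 : Om (γ₁ / b - 1) - δ ≤ Om (γ₁ / b - r) := Om_lip hδ.le (by linarith)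
  have a3 := le_max_right 0 (Om (γ₁ / a - 1) - Om (γ₁ / b - 1))
  have a4 := le_max_left 0 (Om (γ₁ / a - 1) - Om (γ₁ / b - 1))
  exact (mul_le_mul_of_nonneg_left (by linarith) (by linarith)).trans
    (mul_le_mul_of_nonneg_right r3 (by linarith))

include hD

lemma blk_of_hyp {lo hi a b B β₁ β₂ w : ℝ} (ha : 1 / 200 ≤ a) (hab : a ≤ b) (H : Hyp a B)
    (hB : β₂ ≤ B) (hw : 0 ≤ w) (h : ∀ β, β₁ ≤ β → β ≤ β₂ → lo ≤ β → β ≤ hi → a ≤ β →
      (if β ≤ b then 1 else 0) + max 0 (Om (β / a - 1) - Om (max (β / b) 2 - 1)) ≤ w * β) :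
    Dens (MM lo hi a b) β₁ β₂ w := by
  have a0 : 0 < a := by linarith
  obtain ⟨m, hm⟩ : ∃ m, m = max a lo := ⟨_, rfl⟩
  have m1 : a ≤ m := hm ▸ le_max_left _ _
  have m2 : lo ≤ m := hm ▸ le_max_right _ _
  have hlt : ∀ (x : ℝ) (n : ℕ), 1 < n → (x ^ lo < (n : ℝ) ∧ (n : ℝ) ≤ x ^ hi) ∧ Rough x a n ∧
      ¬ Rough x b n → x ^ m < (n : ℝ) := fun x n h1 h2 => by
    rcases max_choice a lo with e | e <;> rw [hm, e]
    exacts [rough_lt h1 h2.2.1, h2.1.1]
  rcases lt_or_ge hi m with m3 | m3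
  · refine (Dens.zero ?_).weak le_rfl le_rfl hw
    filter_upwards [ev_pos] with x hx n _ _
    exact ind_le le_rfl fun h4 h5 => absurd ((hlt x n h4 h5).trans_le h5.1.2)
      (Real.rpow_lt_rpow_of_exponent_lt hx m3).not_gt
  refine Dens.of_local fun ε hε => ?_
  obtain ⟨δ, d0, d1, d2, d3⟩ : ∃ δ : ℝ, 0 < δ ∧ δ ≤ 1 ∧ δ ≤ a ∧
      δ * (2 * w + w / a + 2 * (3 / a + 1) / a) ≤ ε := by
    have hp : 0 < 2 * w + w / a + 2 * (3 / a + 1) / a := by positivity
    refine ⟨min (min 1 a) (ε / (2 * w + w / a + 2 * (3 / a + 1) / a)), by positivity,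
      (min_le_left _ _).trans (min_le_left _ _), (min_le_left _ _).trans (min_le_right _ _), ?_⟩
    exact (le_div_iff₀ hp).1 (min_le_right _ _)
  refine ⟨δ, d0, fun γ₁ γ₂ g1 g2 g3 g4 => ?_⟩
  rcases lt_or_ge γ₂ m with g5 | g5
  · refine (Dens.zero ?_).weak le_rfl le_rfl (by linarith)
    filter_upwards [ev_two g5] with x h1 n _ h3
    exact ind_le le_rfl fun h4 h5 => absurd (h3.trans_lt h1) (hlt x n h4 h5).not_gt
  rcases lt_or_ge hi γ₁ with g7 | g7
  · refine (Dens.zero ?_).weak le_rfl le_rfl (by linarith)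
    filter_upwards [ev_two g7] with x h1 n h2 _
    exact ind_le le_rfl fun _ h5 => absurd h5.1.2 (by linarith)
  obtain ⟨β, hβ⟩ : ∃ β, β = max γ₁ m := ⟨_, rfl⟩
  have b1 : γ₁ ≤ β := hβ ▸ le_max_left _ _
  have b2 : m ≤ β := hβ ▸ le_max_right _ _
  have b3 : β ≤ γ₂ := hβ ▸ max_le g2 g5
  have b0 : 0 < β := by linarith
  have hh := h β (by linarith) (by linarith) (by linarith) (hβ ▸ max_le g7 m3) (by linarith)
  obtain ⟨F, hF⟩ : ∃ F, F = max 0 (Om (β / a - 1) - Om (max (β / b) 2 - 1)) := ⟨_, rfl⟩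
  rw [← hF] at hh
  have F0 : 0 ≤ F := hF ▸ le_max_left _ _
  have p1 : Dens (PB m b) γ₁ γ₂ ((if β ≤ b then 1 else 0) / β) := by
    split_ifs with hb
    · rw [hβ]
      exact hD _ γ₁ γ₂ m (by linarith) (Eventually.of_forall fun x n _ _ =>
        ind_le (by split_ifs <;> norm_num) fun _ h => (if_pos ⟨h.1, h.2.1.le⟩).ge)
    · rw [zero_div]
      refine Dens.zero ?_
      rcases lt_max_iff.1 (hβ ▸ not_le.1 hb) with h1 | h1
      · filter_upwards [ev_two h1] with x h1 n h2 _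
        exact ind_le le_rfl fun _ h5 => absurd h5.2.2 (by linarith)
      · filter_upwards [ev_pos] with x hx n _ _
        exact ind_le le_rfl fun _ h5 => absurd (h5.2.1.trans_le h5.2.2)
          (Real.rpow_lt_rpow_of_exponent_lt hx h1).not_gt
  have p2 : Dens (CC a b) γ₁ γ₂ (F / β + ε) := by
    rcases lt_or_ge γ₂ (2 * a) with g6 | g6
    · exact (CC_zero g6).weak le_rfl le_rfl (by positivity)
    have g8 : a ≤ γ₁ := by linarith
    have g0 : 0 < γ₁ := by linarith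
    obtain ⟨c, hc⟩ : ∃ c, c = min b (γ₂ / 2 + δ) := ⟨_, rfl⟩
    have c1 : a ≤ c := hc ▸ le_min hab (by linarith)
    have c2 : c ≤ b := hc ▸ min_le_left _ _
    have c3 : c ≤ γ₂ / 2 + δ := hc ▸ min_le_right _ _
    have c0 : 0 < c := by linarith
    have q1 := chain' hC hP a0 c1 H d0 g0 (g3.trans hB)
    have q2 : Dens (CC c b) γ₁ γ₂ 0 := by
      rcases min_cases b (γ₂ / 2 + δ) with ⟨h1, -⟩ | ⟨h1, -⟩
      · rw [hc, h1]
        exact Dens.zero (Eventually.of_forall fun x n _ _ => ind_le le_rfl fun _ h =>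
          absurd h.2.1 h.2.2)
      · exact CC_zero (by rw [hc, h1]; linarith)
    refine ((q1.add q2).mono
      (Eventually.of_forall fun x n _ _ => CC_split x _ c _ n)).weak le_rfl le_rfl ?_
    have s0 : 0 ≤ 3 * δ / a := by positivity
    have s1 : max (β / b) 2 - 3 * δ / a ≤ γ₁ / c := by
      have t1 : 3 * δ / c ≤ 3 * δ / a := div_le_div_of_nonneg_left (by positivity) a0 c1
      have t2 : β / c ≤ γ₁ / c + 3 * δ / c := by
        rw [← add_div]
        exact div_le_div_of_nonneg_right (by linarith) c0.le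
      have t3 : 2 ≤ γ₁ / c + 3 * δ / c := by
        rw [← add_div, le_div_iff₀ c0]
        linarith
      rw [sub_le_iff_le_add]
      exact max_le ((div_le_div_of_nonneg_left b0.le c0 c2).trans (by linarith)) (by linarith)
    have s2 := Om_lip (s := max (β / b) 2 - 1) (t := γ₁ / c - 1) s0 (by linarith)
    have s2' : Om (γ₁ / a - 1) ≤ Om (β / a - 1) :=
      Om_mono (by linarith [div_le_div_of_nonneg_right b1 a0.le])
    have s3 : max 0 (Om (γ₁ / a - 1) - Om (γ₁ / c - 1)) ≤ F + 3 * δ / a := by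
      have := le_max_right 0 (Om (β / a - 1) - Om (max (β / b) 2 - 1))
      exact max_le (by linarith) (by linarith)
    have s4 : F ≤ w * β := by
      have : (0 : ℝ) ≤ if β ≤ b then 1 else 0 := by split_ifs <;> norm_num
      linarith
    have s5 : δ * (w / a + 2 * (3 / a + 1) / a) * a = δ * w + 2 * (3 * δ / a + δ) := by
      field_simp
    have s6 := mul_le_mul_of_nonneg_left g8
      (show 0 ≤ δ * (w / a + 2 * (3 / a + 1) / a) by positivity)
    have s7 := mul_le_mul_of_nonneg_right d3 g0.le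
    have s8 := mul_le_mul_of_nonneg_left (s4.trans (mul_le_mul_of_nonneg_left
      (show β ≤ 2 * γ₁ by linarith) hw)) d0.le
    have s9 := mul_le_mul_of_nonneg_right d1 (show 0 ≤ 3 * δ / a + δ by positivity)
    have s10 : F ≤ F / β * γ₁ + δ * w := by
      have t1 : F / β ≤ w := (div_le_iff₀ b0).2 s4
      have t2 : F = F / β * γ₁ + F / β * (β - γ₁) := by
        rw [← mul_add, add_sub_cancel, div_mul_cancel₀ _ b0.ne']
      have t3 : F / β * (β - γ₁) ≤ w * δ := mul_le_mul t1 (by linarith) (by linarith) hw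
      linarith
    rw [add_zero, div_le_iff₀ g0]
    refine (mul_le_mul_of_nonneg_left (add_le_add_left s3 δ) (by linarith)).trans ?_
    linarith
  refine ((p1.add p2).mono
    (Eventually.of_forall fun x n _ _ => hm ▸ MM_le lo hi a b n)).weak le_rfl le_rfl ?_
  rw [← add_assoc, ← add_div]
  exact add_le_add_left ((div_le_iff₀ b0).2 hh) _

lemma rough_all (k : ℕ) : ∀ a β₁ β₂ : ℝ, 1 / 200 ≤ a → β₂ ≤ k / 200 →
    Dens (RR a) β₁ β₂ (qq (β₁ / a) / a) := by
  induction k with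
  | zero =>
    intro a β₁ β₂ ha hβ
    refine (Dens.zero ?_).weak le_rfl le_rfl (div_nonneg (qq_pos _).le (by linarith))
    filter_upwards [ev_two (show β₂ < a by simp at hβ; linarith)] with x h1 n _ h3
    exact ind_le le_rfl fun h4 h5 => absurd (h3.trans_lt h1) (rough_lt h4 h5).not_gt
  | succ k ih =>
    intro a β₁ β₂ ha hβ
    have a0 : 0 < a := by linarith
    push_cast at hβ
    have m1 := le_max_left β₂ a
    have m2 := le_max_right β₂ a
    have := blk_of_hyp hC hP hD (lo := a) (hi := max β₂ a + 1) (a := a) (b := max β₂ a + 1)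
      (B := β₂) (β₁ := β₁) (β₂ := β₂) (w := qq (β₁ / a) / a) ha (by linarith)
      (fun a' γ₁ γ₂ h1 h2 => ih a' γ₁ γ₂ (by linarith) (by linarith)) le_rfl
      (div_nonneg (qq_pos _).le a0.le) fun β h1 h2 _ _ h3 => by
        have u1 : 1 ≤ β / a := (one_le_div a0).2 h3
        have u2 : β / (max β₂ a + 1) ≤ 2 := by
          rw [div_le_iff₀ (by linarith)]
          linarith
        have u3 : qq (β / a) ≤ qq (β₁ / a) := qq_anti (div_le_div_of_nonneg_right h1 a0.le)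
        have u4 := (div_le_iff₀ (by linarith)).1 ((inv_le_qq u1).trans u3)
        have u5 := mul_le_mul_of_nonneg_right (cc_le_qq (β₁ / a)) (zero_le_one.trans u1)
        have u6 := Om_step (β / a)
        rw [if_pos (by linarith), max_eq_right u2, show (2 : ℝ) - 1 = 1 by norm_num, Om_one,
          sub_zero, div_mul_eq_mul_div, mul_div_assoc, ← le_sub_iff_add_le']
        exact max_le (by linarith) (by linarith)
    refine this.mono ?_
    filter_upwards [ev_two (show β₂ < max β₂ a + 1 by linarith)] with x h1 n _ h3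
    have x0 : 0 ≤ (n : ℝ) := Nat.cast_nonneg n
    exact ind_le (ind_nonneg _ _) fun h4 h5 => (ind_pos h4 ⟨⟨rough_lt h4 h5, by linarith⟩, h5,
      fun h6 => absurd (h3.trans_lt h1) (rough_lt h4 h6).not_gt⟩).ge

/-- rough numbers -/
theorem dens_RR {a : ℝ} (ha : 1 / 200 ≤ a) (β₁ β₂ : ℝ) :
    Dens (RR a) β₁ β₂ (qq (β₁ / a) / a) := by
  obtain ⟨k, hk⟩ := exists_nat_ge (200 * β₂)
  exact rough_all hC hP hD k a β₁ β₂ ha (by linarith)

/-- numbers with the least prime factor in a range -/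
theorem dens_MM {lo hi a b β₁ β₂ w : ℝ} (ha : 1 / 200 ≤ a) (hab : a ≤ b) (hw : 0 ≤ w)
    (h : ∀ β, β₁ ≤ β → β ≤ β₂ → lo ≤ β → β ≤ hi → a ≤ β → (if β ≤ b then 1 else 0) +
      max 0 (Om (β / a - 1) - Om (max (β / b) 2 - 1)) ≤ w * β) :
    Dens (MM lo hi a b) β₁ β₂ w :=
  blk_of_hyp hC hP hD ha hab (B := β₂) (fun _ _ _ h1 _ => dens_RR hC hP hD (ha.trans h1) _ _)
    le_rfl hw h

end

end Pool.Agent.MP_c853c5_nt.L
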