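import Pool.Agent.MP_c853c5_nt.L.Defs
import Pool.Agent.MP_c853c5_nt.Z.Sand

/-!
The density of primes and the long sum over primes.
-/

set_option autoImplicit false

open Finset Filter
open ArithmeticFunction (vonMangoldt)

namespace Pool.Agent.MP_c853c5_nt.L

open Pool.Agent.MP_c853c5_nt.Z

lemma key_DPrime (hS : SmStmt) (hZ : ZD (9 / 4)) (E : ℝ) (hE : 0 < E) : ∃ Y₀ : ℝ, ∀ Y : ℝ,
    Y₀ ≤ Y → 1 ≤ Real.log Y ∧ ∀ D : ℝ, Y ^ (-(2 / 5) : ℝ) ≤ D → D ≤ 1 / Real.log Y →
      |PP D (Real.log Y) - Y| ≤ E * Y := by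
  have h := (hS (9 / 4) (3 / 5) le_rfl hZ (by norm_num) (by norm_num) E hE).and
    ((Real.tendsto_log_atTop.eventually_ge_atTop 1).and ev_pos)
  obtain ⟨Y₀, h⟩ := eventually_atTop.1 h
  refine ⟨Y₀, fun Y hY => ?_⟩
  obtain ⟨h1, h2, h3⟩ := h Y hY
  refine ⟨h2, fun D h4 h5 => ?_⟩
  have y0 : 0 < Y := by linarith
  have h6 : Y ^ ((3 / 5 : ℝ) - 1) / Real.log Y ≤ D := by
    rw [show (3 / 5 : ℝ) - 1 = -(2 / 5) by norm_num]
    exact (div_le_self (Real.rpow_nonneg y0.le _) h2).trans h4
  have := h1 D h6 h5 (Real.log Y) ⟨by linarith, by linarith⟩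
  rwa [Real.exp_log y0] at this

lemma evlog_DPrime (K δ : ℝ) (hK : 0 < K) (hδ : 0 < δ) :
    ∀ᶠ x : ℝ in atTop, K * Real.log x ≤ x ^ δ := by
  have h := (isLittleO_log_rpow_atTop hδ).bound (inv_pos.2 hK)
  filter_upwards [h, ev_pos] with x h1 hx
  rw [Real.norm_eq_abs, Real.norm_eq_abs, abs_of_pos (Real.log_pos hx),
    abs_of_pos (Real.rpow_pos_of_pos (by linarith) _)] at h1
  calc K * Real.log x ≤ K * (K⁻¹ * x ^ δ) := mul_le_mul_of_nonneg_left h1 hK.le
    _ = x ^ δ := by field_simp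

lemma evpow_DPrime (K δ : ℝ) (hδ : 0 < δ) : ∀ᶠ x : ℝ in atTop, K ≤ x ^ δ :=
  (tendsto_rpow_atTop hδ).eventually_ge_atTop K

lemma DB_eq_DPrime {x : ℝ} (hx : 0 < x) : DB x = 1 / x ^ (1 / 1000 : ℝ) := by
  rw [DB, Real.rpow_neg hx.le, inv_eq_one_div]

lemma sum_le_DPrime {D : ℝ} (h : 0 < D) (h1 : D ≤ 1) (Y : ℝ) :
    SS Y D (fun n => vonMangoldt n) ≤ PP D (Real.log Y) :=
  Summable.sum_le_tsum _ (fun _ _ => mul_nonneg ArithmeticFunction.vonMangoldt_nonneg
    (gg_nonneg h.le _)) (summable_Sand h h1 _)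

lemma SS_div_DPrime (Y D K : ℝ) (f : ℕ → ℝ) : SS Y D (fun n => f n / K) = SS Y D f / K := by
  unfold SS
  rw [sum_div]
  exact sum_congr rfl fun n _ => by ring

theorem dprime (hS : SmStmt) (hZ : ZD (9 / 4)) : DPrimeStmt := by
  intro g a b c hc hg ε hε
  set m := max a c with hm
  have m0 : 0 < m := lt_of_lt_of_le (by linarith) (le_max_right a c)
  obtain ⟨Y₀, hY₀⟩ := key_DPrime hS hZ (ε * m / 2) (by positivity)
  filter_upwards [hg, ev_pos, evpow_DPrime Y₀ (1 / 400) (by norm_num),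
    evpow_DPrime 2 (1 / 400) (by norm_num),
    evlog_DPrime (max b 1) (1 / 1000) (lt_of_lt_of_le one_pos (le_max_right b 1)) (by norm_num),
    Real.tendsto_log_atTop.eventually_ge_atTop ((1 / m + ε) / (ε * m / 2))]
    with x h1 hx h2 h3 h4 h5 Y ha hb
  have x0 : 0 < x := by linarith
  have y0 : 0 < Y := (Real.rpow_pos_of_pos x0 a).trans_le ha
  have D0 := DB_pos x0
  set L := Real.log x with hL
  have L0 : 0 < L := Real.log_pos hx
  have hR : 0 ≤ (1 / m + ε) * (Y / L) := by positivity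
  by_cases hc2 : 2 * Y < x ^ c
  · refine ((SS_mono (g := fun _ => 0) y0.le D0.le fun n k1 k2 => ?_).trans_eq
      (SS_zero _ _)).trans hR
    refine (h1 n (by linarith) (by linarith)).trans (le_of_eq (if_neg fun k => ?_))
    linarith [k.2]
  have hY : x ^ (1 / 400 : ℝ) ≤ Y := by
    have e1 : x ^ (1 / 200 : ℝ) ≤ x ^ c := Real.rpow_le_rpow_of_exponent_le hx.le hc
    have e2 : x ^ (1 / 200 : ℝ) = x ^ (1 / 400 : ℝ) * x ^ (1 / 400 : ℝ) := by
      rw [← Real.rpow_add x0]
      norm_num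
    nlinarith [not_lt.1 hc2]
  obtain ⟨k1, k2⟩ := hY₀ Y (h2.trans hY)
  have k3 : Y ^ (-(2 / 5) : ℝ) ≤ DB x := by
    calc Y ^ (-(2 / 5) : ℝ) ≤ (x ^ (1 / 400 : ℝ)) ^ (-(2 / 5) : ℝ) :=
          Real.rpow_le_rpow_of_nonpos (Real.rpow_pos_of_pos x0 _) hY (by norm_num)
      _ = DB x := by
          rw [← Real.rpow_mul x0.le, DB]
          norm_num
  have k4 : DB x ≤ 1 / Real.log Y := by
    rw [DB_eq_DPrime x0]
    apply one_div_le_one_div_of_le (by linarith)
    calc Real.log Y ≤ Real.log (x ^ b) := Real.log_le_log y0 hb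
      _ = b * L := Real.log_rpow x0 b
      _ ≤ max b 1 * L := mul_le_mul_of_nonneg_right (le_max_left b 1) L0.le
      _ ≤ _ := h4
  have k5 : DB x ≤ 1 := k4.trans (by rw [div_le_one (by linarith)]; exact k1)
  have k6 := (abs_le.1 (k2 _ k3 k4)).2
  have h6 : 1 / m + ε ≤ L * (ε * m / 2) := (div_le_iff₀ (by positivity)).1 h5
  have h7 : 1 / m * m = 1 := by field_simp
  have h8 : 0 < 1 / m := by positivity
  have k7 : 0 < m * L - 1 := by
    have : ε * 2 ≤ ε * (m * L) := by nlinarith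
    have := le_of_mul_le_mul_left this hε
    linarith
  have l2 : Real.log 2 ≤ 1 := by linarith [Real.log_two_lt_d9]
  have k8 : SS Y (DB x) (g x) ≤ SS Y (DB x) fun n => vonMangoldt n / (m * L - 1) := by
    refine SS_mono y0.le D0.le fun n n1 n2 => (h1 n (by linarith) (by linarith)).trans ?_
    split_ifs with k
    · rw [ArithmeticFunction.vonMangoldt_apply_prime k.1, le_div_iff₀ k7, one_mul]
      have a1 : a * L - 1 ≤ Real.log n := by
        have : Real.log (x ^ a / 2) ≤ Real.log n :=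
          Real.log_le_log (by positivity) (by linarith)
        rw [Real.log_div (by positivity) (by norm_num), Real.log_rpow x0] at this
        linarith
      have a2 : c * L ≤ Real.log n := by
        have := Real.log_le_log (Real.rpow_pos_of_pos x0 c) k.2
        rwa [Real.log_rpow x0] at this
      rcases max_choice a c with e | e <;> rw [hm, e] <;> linarith
    · exact div_nonneg ArithmeticFunction.vonMangoldt_nonneg k7.le
  rw [SS_div_DPrime] at k8
  calc SS Y (DB x) (g x) ≤ (1 + ε * m / 2) * Y / (m * L - 1) := by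
        refine k8.trans (div_le_div_of_nonneg_right ?_ k7.le)
        linarith [sum_le_DPrime D0 k5 Y]
    _ ≤ (1 / m + ε) * (Y / L) := by
        rw [← mul_div_assoc, div_le_div_iff₀ k7 L0]
        have : (1 + ε * m / 2) * L ≤ (1 / m + ε) * (m * L - 1) := by
          have e : (1 / m + ε) * (m * L - 1) = 1 / m * m * L + ε * m * L - (1 / m + ε) := by ring
          rw [e, h7]
          linarith
        nlinarith

lemma tail_DPrime (C E : ℝ) (hC : 0 ≤ C) (hE : 0 < E) : ∀ᶠ x : ℝ in atTop,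
    (DB x)⁻¹ * hh_Sand (DB x) (1 / 2) * Real.exp (2 * Real.log x + 1) * C ≤ E * x := by
  filter_upwards [ev_pos, evlog_DPrime 8 (1 / 1000) (by norm_num) (by norm_num),
    eventually_ge_atTop (Real.exp 1 * C / E)] with x hx h1 h2
  have x0 : 0 < x := by linarith
  set y := x ^ (1 / 1000 : ℝ) with hy
  have y1 : 1 ≤ y := Real.one_le_rpow hx.le (by norm_num)
  have y2 : y ≤ Real.exp (Real.log x) := by
    rw [Real.exp_log x0]
    exact Real.rpow_le_self_of_one_le hx.le (by norm_num)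
  have e1 : (DB x)⁻¹ = y := by rw [DB_eq_DPrime x0, one_div, inv_inv]
  have e2 : hh_Sand (DB x) (1 / 2) ≤ Real.exp (-(3 * Real.log x)) := by
    rw [hh_Sand, DB_eq_DPrime x0, ← hy]
    apply Real.exp_le_exp.2
    apply neg_le_neg
    have : Real.pi * (1 / 2) ^ 2 / (2 * (1 / y) ^ 2) = Real.pi * y ^ 2 / 8 := by
      field_simp
      ring
    rw [this]
    have p3 := Real.pi_gt_three
    have y3 : y ≤ y ^ 2 := by nlinarith
    nlinarith
  rw [e1]
  calc y * hh_Sand (DB x) (1 / 2) * Real.exp (2 * Real.log x + 1) * C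
      ≤ Real.exp (Real.log x) * Real.exp (-(3 * Real.log x)) *
          Real.exp (2 * Real.log x + 1) * C := by
        have : 0 ≤ hh_Sand (DB x) (1 / 2) := (Real.exp_pos _).le
        gcongr
    _ = Real.exp 1 * C := by
        rw [← Real.exp_add, ← Real.exp_add]
        congr 2
        ring
    _ ≤ E * x := by
        rw [div_le_iff₀ hE] at h2
        linarith

lemma np_DPrime (E : ℝ) (hE : 0 < E) : ∀ᶠ x : ℝ in atTop,
    SS x (DB x) (fun n => if n.Prime then 0 else vonMangoldt n) ≤ E * x := by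
  filter_upwards [ev_pos, evlog_DPrime 2 (1 / 1000) (by norm_num) (by norm_num),
    evpow_DPrime (4 / E) (1 / 4) (by norm_num), eventually_ge_atTop 2] with x hx h1 h2 h3
  have x0 : 0 < x := by linarith
  have D0 := DB_pos x0
  set y := x ^ (1 / 1000 : ℝ) with hy
  set t := x ^ (1 / 4 : ℝ) with ht
  have y0 : 0 < y := Real.rpow_pos_of_pos x0 _
  have t0 : 0 < t := Real.rpow_pos_of_pos x0 _
  have e1 : (DB x)⁻¹ = y := by rw [DB_eq_DPrime x0, one_div, inv_inv]
  have e2 : y * y ≤ t := by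
    rw [hy, ← Real.rpow_add x0]
    exact Real.rpow_le_rpow_of_exponent_le hx.le (by norm_num)
  have e3 : t ^ 4 = x := by
    rw [ht, ← Real.rpow_natCast, ← Real.rpow_mul x0.le]
    norm_num
  have e4 : √(2 * x) ≤ 2 * t ^ 2 := by
    apply Real.sqrt_le_iff.2
    refine ⟨by positivity, ?_⟩
    nlinarith
  have e5 : Real.log (2 * x) ≤ y := by
    rw [Real.log_mul (by norm_num) x0.ne']
    have := Real.log_le_log (by norm_num) h3
    linarith
  have e6 : 0 ≤ Real.log (2 * x) := Real.log_nonneg (by linarith)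
  have s1 : SS x (DB x) (fun n => if n.Prime then 0 else vonMangoldt n) ≤
      (∑ n ∈ Ioc 0 ⌊2 * x⌋₊ with ¬n.Prime, vonMangoldt n) * y := by
    rw [sum_filter, sum_mul, SS]
    calc _ ≤ ∑ n ∈ Ioc ⌊x / 2⌋₊ ⌊2 * x⌋₊, (if ¬n.Prime then vonMangoldt n else 0) * y := by
          refine sum_le_sum fun n _ => ?_
          have g1 : gg (DB x) (Real.log x - Real.log n) ≤ y := by
            rw [gg, e1]
            apply mul_le_of_le_one_right y0.le
            apply Real.exp_le_one_iff.2
            have := Real.pi_pos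
            have : 0 ≤ Real.pi * (Real.log x - Real.log n) ^ 2 / DB x ^ 2 := by positivity
            linarith
          by_cases k : n.Prime
          · simp [k]
          · simp only [k, if_false, not_false_eq_true, if_true]
            exact mul_le_mul_of_nonneg_left g1 ArithmeticFunction.vonMangoldt_nonneg
      _ ≤ _ := by
          apply sum_le_sum_of_subset_of_nonneg (Ioc_subset_Ioc_left (Nat.zero_le _))
          intro n _ _
          apply mul_nonneg _ y0.le
          split_ifs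
          · exact le_rfl
          · exact ArithmeticFunction.vonMangoldt_nonneg
  rw [← Chebyshev.psi_sub_theta_eq_sum_not_prime] at s1
  have s2 := Chebyshev.psi_sub_theta_le (x := 2 * x) (by linarith)
  rw [div_le_iff₀ hE] at h2
  calc _ ≤ 2 * √(2 * x) * Real.log (2 * x) * y :=
        s1.trans (mul_le_mul_of_nonneg_right s2 y0.le)
    _ ≤ 2 * (2 * t ^ 2) * y * y := by gcongr
    _ = 4 * t ^ 2 * (y * y) := by ring
    _ ≤ (t * E) * t ^ 2 * t := by gcongr
    _ = E * x := by rw [← e3]; ring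

theorem long (hS : SmStmt) (hZ : ZD (9 / 4)) : LongStmt := by
  intro ε hε
  have hE : 0 < ε / 4 := by positivity
  obtain ⟨Y₀, hY₀⟩ := key_DPrime hS hZ (ε / 4) hE
  have hC : 0 ≤ ∑' n, ww_Sand n := tsum_nonneg fun n =>
    mul_nonneg ArithmeticFunction.vonMangoldt_nonneg (Real.exp_nonneg _)
  filter_upwards [ev_pos, eventually_ge_atTop Y₀, tail_DPrime _ _ hC hE, np_DPrime _ hE,
    evlog_DPrime 1 (1 / 1000) (by norm_num) (by norm_num),
    Real.tendsto_log_atTop.eventually_ge_atTop (1 / (ε / 4))] with x hx h1 h2 h3 h4 h5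
  have x0 : 0 < x := by linarith
  have D0 := DB_pos x0
  obtain ⟨k1, k2⟩ := hY₀ x h1
  set L := Real.log x with hL
  have L0 : 0 < L := by linarith
  have k3 : x ^ (-(2 / 5) : ℝ) ≤ DB x := Real.rpow_le_rpow_of_exponent_le hx.le (by norm_num)
  have k4 : DB x ≤ 1 / L := by
    rw [DB_eq_DPrime x0]
    exact one_div_le_one_div_of_le L0 (by linarith)
  have k5 : DB x ≤ 1 := k4.trans (by rw [div_le_one L0]; exact k1)
  have k6 := (abs_le.1 (k2 _ k3 k4)).1
  have l1 : 1 / 2 ≤ Real.log 2 := by linarith [Real.log_two_gt_d9]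
  have l2 : Real.log 2 ≤ 1 := by linarith [Real.log_two_lt_d9]
  have k7 := PP_le_Sand (d := 1 / 2) (v := L) D0 k5 (by norm_num) (Ioc ⌊x / 2⌋₊ ⌊2 * x⌋₊) (by
    intro n hn
    rw [mem_win x0.le, not_and_or, not_lt, not_le] at hn
    rcases n.eq_zero_or_pos with rfl | n0
    · rw [Nat.cast_zero, Real.log_zero, sub_zero, abs_of_pos L0]
      linarith
    have n1 : (0 : ℝ) < n := by exact_mod_cast n0
    rcases hn with hn | hn
    · have := Real.log_le_log n1 hn
      rw [Real.log_div x0.ne' (by norm_num)] at this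
      exact le_trans (by linarith) (le_abs_self _)
    · have := Real.log_le_log (by positivity) hn.le
      rw [Real.log_mul (by norm_num) x0.ne'] at this
      exact le_trans (by linarith) (neg_le_abs _))
  have h6 : 1 ≤ L * (ε / 4) := (div_le_iff₀ hE).1 h5
  have k8 : SS x (DB x) (fun n => vonMangoldt n) ≤
      SS x (DB x) (fun n => prm n / ((1 + ε / 4) * L)⁻¹) +
        SS x (DB x) (fun n => if n.Prime then 0 else vonMangoldt n) := by
    rw [← SS_add]
    refine SS_mono x0.le D0.le fun n n1 n2 => ?_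
    by_cases k : n.Prime
    · have e : prm n = 1 := if_pos k
      rw [e, if_pos k, add_zero, one_div, inv_inv, ArithmeticFunction.vonMangoldt_apply_prime k]
      have := Real.log_le_log (by linarith) n2
      rw [Real.log_mul (by norm_num) x0.ne'] at this
      linarith
    · have e : prm n = 0 := if_neg k
      rw [e, if_neg k, zero_div, zero_add]
  rw [SS_div_DPrime, div_inv_eq_mul] at k8
  have k9 : (1 - 3 * (ε / 4)) * x ≤ SS x (DB x) prm * ((1 + ε / 4) * L) := by
    have : PP (DB x) L ≤ SS x (DB x) (fun n => vonMangoldt n) + ε / 4 * x :=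
      k7.trans (add_le_add_right h2 _)
    linarith
  rw [← mul_div_assoc, div_le_iff₀ L0]
  refine le_of_mul_le_mul_right ?_ (show 0 < 1 + ε / 4 by positivity)
  have : (1 - ε) * (1 + ε / 4) ≤ 1 - 3 * (ε / 4) := by nlinarith
  nlinarith

end Pool.Agent.MP_c853c5_nt.L
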