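import Pool.Agent.MP_c853c5_nt.L.Defs

set_option autoImplicit false

open Finset Filter

namespace Pool.Agent.MP_c853c5_nt.L

open Pool.Agent.MP_c853c5_nt.Z

lemma log_gap_Fin {a b : ℝ} (ha : 0 < a) (hab : a ≤ b) : (b - a) / b ≤ Real.log b - Real.log a := by
  have hb : 0 < b := ha.trans_le hab
  have h := Real.one_sub_inv_le_log_of_pos (div_pos hb ha)
  rw [Real.log_div hb.ne' ha.ne', inv_div] at h
  rwa [sub_div, div_self hb.ne']

lemma log_far_Fin {x n d : ℝ} (hx : 0 < x) (hn : 0 < n) (hn2 : n ≤ 2 * x) (hd : 0 ≤ d)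
    (h : n + d ≤ x ∨ x + d ≤ n) : d / (2 * x) ≤ |Real.log x - Real.log n| := by
  rcases h with h | h
  · refine le_trans ?_ ((log_gap_Fin hn (by linarith)).trans (le_abs_self _))
    exact div_le_div₀ (by linarith) (by linarith) hx (by linarith)
  · rw [abs_sub_comm]
    refine le_trans ?_ ((log_gap_Fin hx (by linarith)).trans (le_abs_self _))
    exact div_le_div₀ (by linarith) (by linarith) hn hn2

lemma gg_le_Fin {x t z w : ℝ} (hx : 1 ≤ x) (ht : t ≤ 1) (hw : 0 ≤ w) (h : w ≤ |z| * x ^ t) :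
    gg (x ^ (-t)) z ≤ x * Real.exp (-(3 * w ^ 2)) := by
  have x0 : 0 < x := by linarith
  unfold gg
  rw [Real.rpow_neg x0.le, inv_inv]
  refine mul_le_mul ?_ (Real.exp_le_exp.2 (neg_le_neg ?_)) (Real.exp_pos _).le x0.le
  · simpa using Real.rpow_le_rpow_of_exponent_le hx ht
  · have h1 : w ^ 2 ≤ z ^ 2 * (x ^ t) ^ 2 := by
      have := pow_le_pow_left₀ hw h 2
      rwa [mul_pow, sq_abs] at this
    rw [inv_pow, div_inv_eq_mul, mul_assoc]
    exact mul_le_mul Real.pi_gt_three.le h1 (sq_nonneg _) Real.pi_pos.le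

lemma ev_small_Fin {k c : ℝ} (hk : 0 < k) (hc : 0 < c) :
    ∀ᶠ y : ℝ in atTop, y ^ 2 * Real.exp (-(3 * (y ^ k / 6) ^ 2)) < c := by
  have h1 := (tendsto_rpow_mul_exp_neg_mul_atTop_nhds_zero (1 / k) (1 / 12) (by norm_num)).comp
    (tendsto_rpow_atTop (show 0 < 2 * k by linarith))
  filter_upwards [h1.eventually (gt_mem_nhds hc), eventually_gt_atTop 0] with y h2 hy
  have e1 : (y ^ (2 * k)) ^ (1 / k) = y ^ 2 := by
    rw [← Real.rpow_mul hy.le, ← Real.rpow_natCast]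
    congr 1
    field_simp
    norm_num
  have e2 : -(1 / 12) * y ^ (2 * k) = -(3 * (y ^ k / 6) ^ 2) := by
    rw [mul_comm 2 k, Real.rpow_mul hy.le, Real.rpow_two]
    ring
  simpa only [Function.comp, e1, e2] using h2

theorem fin : FinStmt := by
  intro t c θ ht ht1 hc hθ h
  obtain ⟨s, hs1, hsθ, hk⟩ : ∃ s : ℝ, s ≤ 1 ∧ s ≤ θ ∧ 0 < s - 1 + t :=
    ⟨min θ 1, min_le_right _ _, min_le_left _ _, by
      have := lt_min hθ (show 1 - t < 1 by linarith)
      linarith⟩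
  obtain ⟨x₀, hx₀⟩ := eventually_atTop.1 h
  filter_upwards [eventually_ge_atTop x₀, ev_pos,
    ev_small_Fin hk (show 0 < c / 5 by positivity)] with y hy0 hy hsm
  by_contra hne
  have y0 : 0 < y := by linarith
  have p0 : 0 < y ^ s := Real.rpow_pos_of_pos y0 s
  have p1 : y ^ s ≤ y := by simpa using Real.rpow_le_rpow_of_exponent_le hy.le hs1
  have p2 : y ^ s ≤ y ^ θ := Real.rpow_le_rpow_of_exponent_le hy.le hsθ
  obtain ⟨x, hx⟩ : ∃ x : ℝ, x = y + y ^ s / 2 := ⟨_, rfl⟩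
  have x1 : y ≤ x := by linarith
  have x2 : x ≤ 3 / 2 * y := by linarith
  have x0 : 0 < x := by linarith
  have x3 : 1 < x := by linarith
  obtain ⟨E, hE⟩ : ∃ E : ℝ, E = Real.exp (-(3 * (y ^ (s - 1 + t) / 6) ^ 2)) := ⟨_, rfl⟩
  have E0 : 0 < E := by rw [hE]; exact Real.exp_pos _
  rw [← hE] at hsm
  have a1 : ∀ n ∈ Ioc ⌊x / 2⌋₊ ⌊2 * x⌋₊,
      prm n * gg (x ^ (-t)) (Real.log x - Real.log n) ≤ x * E := by
    intro n hn
    obtain ⟨n1, n2⟩ := (mem_win x0.le).1 hn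
    change (if n.Prime then (1 : ℝ) else 0) * _ ≤ _
    split_ifs with hp
    · rw [one_mul, hE]
      refine gg_le_Fin x3.le ht1.le (by positivity) ?_
      have b1 : (n : ℝ) + y ^ s / 2 ≤ x ∨ x + y ^ s / 2 ≤ n := by
        rcases le_or_gt (n : ℝ) y with e | e
        · exact Or.inl (by linarith)
        · have : y + y ^ θ ≤ n := not_lt.1 fun e' => hne ⟨n, hp, e, e'⟩
          exact Or.inr (by linarith)
      have b2 := log_far_Fin x0 (by linarith) n2 (by positivity) b1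
      have b3 : y ^ s / y / 6 ≤ y ^ s / 2 / (2 * x) := by
        rw [div_div, div_div]
        exact div_le_div_of_nonneg_left p0.le (by positivity) (by linarith)
      have b4 : y ^ t ≤ x ^ t := Real.rpow_le_rpow y0.le x1 ht.le
      have b5 : y ^ (s - 1 + t) / 6 = y ^ s / y / 6 * y ^ t := by
        rw [Real.rpow_add y0, Real.rpow_sub_one y0.ne']
        ring
      rw [b5]
      exact mul_le_mul (b3.trans b2) b4 (by positivity) (abs_nonneg _)
    · rw [zero_mul]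
      positivity
  have a2 : ((Ioc ⌊x / 2⌋₊ ⌊2 * x⌋₊).card : ℝ) ≤ 2 * x := by
    rw [Nat.card_Ioc]
    exact (Nat.cast_le.2 (Nat.sub_le _ _)).trans (Nat.floor_le (by positivity))
  have a3 : SS x (x ^ (-t)) prm ≤ 2 * x * (x * E) := by
    refine (sum_le_card_nsmul _ _ _ a1).trans ?_
    rw [nsmul_eq_mul]
    exact mul_le_mul_of_nonneg_right a2 (by positivity)
  have a4 := (hx₀ x (hy0.trans x1)).trans a3
  have l0 : 0 < Real.log x := Real.log_pos x3
  have l1 : Real.log x ≤ x := (Real.log_le_sub_one_of_pos x0).trans (by linarith)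
  rw [← mul_div_assoc, div_le_iff₀ l0] at a4
  have a6 : c ≤ 2 * (x * E) * Real.log x := by
    refine le_of_mul_le_mul_right ?_ x0
    linarith
  have a7 : 2 * (x * E) * Real.log x ≤ 2 * (x * E) * x :=
    mul_le_mul_of_nonneg_left l1 (by positivity)
  have a8 : x ^ 2 * E ≤ (3 / 2 * y) ^ 2 * E :=
    mul_le_mul_of_nonneg_right (pow_le_pow_left₀ x0.le x2 2) E0.le
  have a9 : 0 < y ^ 2 * E := by positivity
  nlinarith

end Pool.Agent.MP_c853c5_nt.L
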