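import Pool.Agent.MP_c853c5_nt.L.Defs
import Pool.Agent.MP_c853c5_nt.Z.Sand

set_option autoImplicit false

open Finset Filter MeasureTheory Topology

namespace Pool.Agent.MP_c853c5_nt.L

open Pool.Agent.MP_c853c5_nt.Z

lemma point_LDens {D d v : ℝ} {g : ℕ → ℝ} (hD : 0 < D) (hd' : d ≤ 1 / 2) (hg : ∀ m, 0 ≤ g m)
    (S : Finset ℕ) (hS : ∀ m ∈ S, 1 ≤ m) :
    ∑ m ∈ S, Set.indicator (Set.Ioc (Real.log m - d) (Real.log m + d))
      (fun v => g m * ((1 - d) / m) * gg D (v - Real.log m)) v ≤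
        SS (Real.exp v) D g * Real.exp (-v) := by
  classical
  have e2 : Real.exp d < 2 := by
    rw [← Real.exp_log (show (0 : ℝ) < 2 by norm_num)]
    exact Real.exp_lt_exp.2 (by linarith [Real.log_two_gt_d9])
  have e3 : 1 - d ≤ Real.exp (-d) := by linarith [Real.add_one_le_exp (-d)]
  simp only [Set.indicator_apply]
  rw [← sum_filter, SS, sum_mul, Real.log_exp]
  refine (sum_le_sum (g := fun m : ℕ => g m * gg D (v - Real.log m) * Real.exp (-v))
    fun m hm => ?_).trans (sum_le_sum_of_subset_of_nonneg (fun m hm => ?_) fun m _ _ =>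
      mul_nonneg (mul_nonneg (hg m) (gg_nonneg hD.le _)) (Real.exp_nonneg _))
  · obtain ⟨h1, -, h3⟩ := mem_filter.1 hm
    have m0 : (0 : ℝ) < m := by exact_mod_cast hS m h1
    have a1 : Real.exp (-d) / m ≤ Real.exp (-v) := by
      rw [← Real.exp_log m0, ← Real.exp_sub]
      exact Real.exp_le_exp.2 (by linarith)
    have a2 : (1 - d) / m ≤ Real.exp (-v) := (div_le_div_of_nonneg_right e3 m0.le).trans a1
    rw [mul_right_comm]
    exact mul_le_mul_of_nonneg_left a2 (mul_nonneg (hg m) (gg_nonneg hD.le _))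
  · obtain ⟨h1, h2, h3⟩ := mem_filter.1 hm
    have m0 : (0 : ℝ) < m := by exact_mod_cast hS m h1
    have a1 : Real.exp v ≤ m * Real.exp d := by
      rw [← Real.exp_log m0, ← Real.exp_add]
      exact Real.exp_le_exp.2 h3
    have a2 : (m : ℝ) ≤ Real.exp v * Real.exp d := by
      rw [← Real.exp_log m0, ← Real.exp_add]
      exact Real.exp_le_exp.2 (by linarith)
    have a3 := mul_lt_mul_of_pos_left e2 m0
    have a4 := mul_lt_mul_of_pos_left e2 (Real.exp_pos v)
    rw [mem_win (Real.exp_nonneg v)]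
    constructor <;> linarith

lemma core_LDens {D d α β B : ℝ} {g : ℕ → ℝ} (hD : 0 < D) (hd : 0 ≤ d) (hd' : d ≤ 1 / 2)
    (hαβ : α ≤ β) (hg : ∀ m, 0 ≤ g m) (S : Finset ℕ)
    (hS : ∀ m ∈ S, 1 ≤ m ∧ α + d ≤ Real.log m ∧ Real.log m + d ≤ β)
    (hB : ∀ v, α ≤ v → v ≤ β → SS (Real.exp v) D g ≤ B * Real.exp v) :
    (1 - d) * (1 - 2 * hh_Sand D d) * ∑ m ∈ S, g m / m ≤ B * (β - α) := by
  have i1 : ∀ m : ℕ, Integrable (Set.indicator (Set.Ioc (Real.log m - d) (Real.log m + d))
      fun v => g m * ((1 - d) / m) * gg D (v - Real.log m)) := fun m =>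
    IntegrableOn.integrable_indicator (cont_Sand D _ _).integrableOn_Ioc measurableSet_Ioc
  have i2 : Integrable (Set.indicator (Set.Ioc α β) fun _ : ℝ => B) :=
    IntegrableOn.integrable_indicator continuous_const.integrableOn_Ioc measurableSet_Ioc
  have h1 := integral_mono (integrable_finsetSum S fun m _ => i1 m) i2 fun v => by
    by_cases hv : v ∈ Set.Ioc α β
    · rw [Set.indicator_of_mem hv]
      refine (point_LDens hD hd' hg S fun m hm => (hS m hm).1).trans ?_
      refine (mul_le_mul_of_nonneg_right (hB v hv.1.le hv.2) (Real.exp_nonneg _)).trans ?_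
      rw [mul_assoc, ← Real.exp_add, add_neg_cancel, Real.exp_zero, mul_one]
    · rw [Set.indicator_of_notMem hv]
      refine le_of_eq (sum_eq_zero fun m hm => Set.indicator_of_notMem (fun h => hv ?_) _)
      exact ⟨by linarith [h.1, (hS m hm).2.1], by linarith [h.2, (hS m hm).2.2]⟩
  rw [integral_finsetSum S fun m _ => i1 m, integral_indicator measurableSet_Ioc,
    ← intervalIntegral.integral_of_le hαβ, intervalIntegral.integral_const, smul_eq_mul,
    mul_comm] at h1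
  refine le_trans ?_ h1
  rw [mul_sum]
  refine sum_le_sum fun m _ => ?_
  rw [integral_indicator measurableSet_Ioc, ← intervalIntegral.integral_of_le (by linarith),
    intervalIntegral.integral_const_mul]
  have h2 := le_int_Sand hD (a := Real.log m - d) (b := Real.log m + d) (c := Real.log m) hd
    (by linarith) le_rfl
  have h3 : 0 ≤ g m * ((1 - d) / m) :=
    mul_nonneg (hg m) (div_nonneg (by linarith) (Nat.cast_nonneg m))
  refine le_trans (le_of_eq ?_) (mul_le_mul_of_nonneg_left h2 h3)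
  ring

lemma hh_LDens {e : ℝ} (he : 0 < e) : ∀ᶠ x : ℝ in atTop, 2 * hh_Sand (DB x) e ≤ e := by
  have h1 : Tendsto (fun x : ℝ => Real.pi * e ^ 2 / 2 * (x ^ (1 / 1000 : ℝ)) ^ 2) atTop atTop :=
    Tendsto.const_mul_atTop (by positivity)
      ((tendsto_pow_atTop two_ne_zero).comp (tendsto_rpow_atTop (by norm_num)))
  have h2 := (Real.tendsto_exp_neg_atTop_nhds_zero.comp h1).eventually
    (gt_mem_nhds (half_pos he))
  filter_upwards [h2, ev_pos] with x h hx
  have e1 : hh_Sand (DB x) e = Real.exp (-(Real.pi * e ^ 2 / 2 * (x ^ (1 / 1000 : ℝ)) ^ 2)) := by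
    have : 0 < x ^ (1 / 1000 : ℝ) := Real.rpow_pos_of_pos (by linarith) _
    rw [hh_Sand, DB, Real.rpow_neg (by linarith)]
    congr 2
    field_simp
  rw [e1]
  have h' : Real.exp (-(Real.pi * e ^ 2 / 2 * (x ^ (1 / 1000 : ℝ)) ^ 2)) < e / 2 := h
  linarith

lemma pick_LDens {p q w l ε : ℝ} (hp : 0 < p) (hq : 0 < q) (hε : 0 < ε) :
    ∃ e : ℝ, 0 < e ∧ e ≤ 1 / 2 ∧ e ≤ p ∧ e ≤ q ∧
      (w + e) * (l + 2 * e) ≤ (1 - e) * (1 - e) * (w * l + ε) := by
  have c : Continuous fun e : ℝ => (1 - e) * (1 - e) * (w * l + ε) - (w + e) * (l + 2 * e) := by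
    fun_prop
  have h1 : ∀ᶠ e : ℝ in 𝓝 0, 0 < (1 - e) * (1 - e) * (w * l + ε) - (w + e) * (l + 2 * e) :=
    (c.tendsto 0).eventually (lt_mem_nhds (by linarith))
  have h2 : ∀ᶠ e : ℝ in 𝓝 0, e < 1 / 2 := gt_mem_nhds (by norm_num)
  have h3 : ∀ᶠ e : ℝ in 𝓝 0, e < p := gt_mem_nhds hp
  have h4 : ∀ᶠ e : ℝ in 𝓝 0, e < q := gt_mem_nhds hq
  obtain ⟨e, ⟨a1, a2, a3, a4⟩, a5⟩ := (((h1.and (h2.and (h3.and h4))).filter_mono
    (nhdsWithin_le_nhds (s := Set.Ioi 0))).and self_mem_nhdsWithin).exists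
  exact ⟨e, a5, a2.le, a3.le, a4.le, by linarith⟩

theorem ldens : LDensStmt := by
  classical
  intro f g a b a' b' w ha hab hb hw hg hfg hf hD ε hε
  obtain ⟨e, e0, e1, e2, e3, e4⟩ := pick_LDens (w := w) (l := b - a) (sub_pos.2 ha) (sub_pos.2 hb) hε
  filter_upwards [hg, hfg, hf, hD e e0, hh_LDens e0, eventually_ge_atTop (Real.exp 1), ev_pos]
    with x h1 h2 h3 h4 h5 h6 hx X
  have x0 : 0 < x := by linarith
  have L1 : 1 ≤ Real.log x := by
    rw [← Real.log_exp 1]
    exact Real.log_le_log (Real.exp_pos 1) h6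
  have L0 : 0 < Real.log x := by linarith
  have eL : e ≤ e * Real.log x := le_mul_of_one_le_right e0.le L1
  obtain ⟨S, hS⟩ : ∃ S : Finset ℕ,
      S = (Icc 1 X).filter fun m : ℕ => x ^ a ≤ (m : ℝ) ∧ (m : ℝ) ≤ x ^ b := ⟨_, rfl⟩
  have k := core_LDens (α := (a - e) * Real.log x) (β := (b + e) * Real.log x)
    (B := (w + e) / Real.log x) (DB_pos x0) e0.le e1
    (mul_le_mul_of_nonneg_right (by linarith) L0.le) h1 S (fun m hm => by
      rw [hS] at hm
      obtain ⟨m1, m2, m3⟩ := mem_filter.1 hm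
      have m0 : (0 : ℝ) < m := by exact_mod_cast (mem_Icc.1 m1).1
      have a1 := Real.log_le_log (Real.rpow_pos_of_pos x0 a) m2
      have a2 := Real.log_le_log m0 m3
      rw [Real.log_rpow x0] at a1 a2
      exact ⟨(mem_Icc.1 m1).1, by linarith, by linarith⟩)
    fun v v1 v2 => by
      refine (h4 _ ?_ ?_).trans (le_of_eq (by ring))
      · rw [Real.rpow_def_of_pos x0]
        refine Real.exp_le_exp.2 (le_trans ?_ v1)
        rw [mul_comm]
        exact mul_le_mul_of_nonneg_right (by linarith) L0.le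
      · rw [Real.rpow_def_of_pos x0]
        refine Real.exp_le_exp.2 (v2.trans ?_)
        rw [mul_comm (Real.log x)]
        exact mul_le_mul_of_nonneg_right (by linarith) L0.le
  have e5 : (w + e) / Real.log x * ((b + e) * Real.log x - (a - e) * Real.log x) =
      (w + e) * (b - a + 2 * e) := by
    field_simp
    ring
  rw [e5] at k
  have s0 : 0 ≤ ∑ m ∈ S, g x m / m := sum_nonneg fun m _ => div_nonneg (h1 m) (Nat.cast_nonneg m)
  have s1 : ∑ m ∈ Icc 1 X, f x m / m ≤ ∑ m ∈ S, g x m / m := by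
    rw [hS, sum_filter]
    refine sum_le_sum fun m _ => ?_
    split_ifs with h
    · exact div_le_div_of_nonneg_right (h2 m) (Nat.cast_nonneg m)
    · rw [not_not.1 fun k => h (h3 m k), zero_div]
  have s2 : (1 - e) * (1 - e) * ∑ m ∈ S, g x m / m ≤
      (1 - e) * (1 - 2 * hh_Sand (DB x) e) * ∑ m ∈ S, g x m / m :=
    mul_le_mul_of_nonneg_right (mul_le_mul_of_nonneg_left (by linarith) (by linarith)) s0
  have s3 : 0 < (1 - e) * (1 - e) := mul_pos (by linarith) (by linarith)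
  exact s1.trans (le_of_mul_le_mul_left (s2.trans (k.trans e4)) s3)

end Pool.Agent.MP_c853c5_nt.L
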