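import Pool.Agent.MP_c853c5_nt.L.Defs

/-!
The logarithmic mass of the primes between two powers of `x`.
-/

set_option autoImplicit false

open Finset Filter

namespace Pool.Agent.MP_c853c5_nt.L

open Pool.Agent.MP_c853c5_nt.Z

lemma sum_le_LPrime {f : ℕ → ℝ} {y z : ℝ} (hy : 0 ≤ y) (hz : 0 ≤ z)
    (h : ∀ n : ℕ, f n ≤ if n.Prime ∧ y < (n : ℝ) ∧ (n : ℝ) ≤ z then 1 else 0) (X : ℕ) :
    ∑ m ∈ Icc 1 X, f m / m ≤ rcp y z := by
  calc ∑ m ∈ Icc 1 X, f m / m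
      ≤ ∑ m ∈ Icc 1 X, if m.Prime ∧ y < (m : ℝ) ∧ (m : ℝ) ≤ z then 1 / (m : ℝ) else 0 := by
        refine sum_le_sum fun m _ => ?_
        refine (div_le_div_of_nonneg_right (h m) (Nat.cast_nonneg m)).trans (le_of_eq ?_)
        rw [ite_div, zero_div]
    _ = ∑ m ∈ (Icc 1 X).filter fun m : ℕ => m.Prime ∧ y < (m : ℝ) ∧ (m : ℝ) ≤ z, 1 / (m : ℝ) :=
        (sum_filter _ _).symm
    _ ≤ rcp y z := by
        refine sum_le_sum_of_subset_of_nonneg (fun m hm => ?_) fun m _ _ => by positivity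
        obtain ⟨-, h1, h2, h3⟩ := mem_filter.1 hm
        exact mem_filter.2 ⟨mem_Ioc.2 ⟨(Nat.floor_lt hy).2 h2, (Nat.le_floor_iff hz).2 h3⟩, h1⟩

theorem lprime (hM : MertStmt) : LPrimeStmt := by
  intro f a b ha hab hf ε hε
  obtain ⟨y₀, -, h0⟩ := hM ε hε
  filter_upwards [hf, ev_pos, (tendsto_rpow_atTop ha).eventually_ge_atTop y₀] with x h1 hx h2 X
  have x0 : 0 < x := by linarith
  have h3 := h0 _ _ h2 (Real.rpow_le_rpow_of_exponent_le hx.le hab)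
  rw [Real.log_rpow x0, Real.log_rpow x0, mul_div_mul_right _ _ (Real.log_pos hx).ne'] at h3
  have h4 := sum_le_LPrime (Real.rpow_pos_of_pos x0 a).le (Real.rpow_pos_of_pos x0 b).le h1 X
  linarith [(abs_le.1 h3).2]

end Pool.Agent.MP_c853c5_nt.L
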