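import Pool.Agent.MP_c853c5_nt.L.Blk
import Pool.Agent.MP_c853c5_nt.L.Conv
import Pool.Agent.MP_c853c5_nt.L.DPrime
import Pool.Agent.MP_c853c5_nt.L.LPrime
import Pool.Agent.MP_c853c5_nt.L.LDens
import Pool.Agent.MP_c853c5_nt.L.Fin
import Pool.Agent.MP_c853c5_nt.Z.PMain
import Pool.Agent.MP_c853c5_nt.Z.XMain
import Pool.Agent.MP_c853c5_nt.Z.XSq
import Pool.Agent.MP_2a1f0e_nt.SQ.Main

/-!
The long side: masses of convolutions of blocks, and the last step.
-/

set_option autoImplicit false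

open Finset Filter

namespace Pool.Agent.MP_c853c5_nt.L

open Pool.Agent.MP_c853c5_nt.S (Rough Blk bf fr Mass Low EndStmt)

theorem sm_all : Z.SmStmt := Z.sm Z.ef_all Z.zFar (Z.zNear Z.nd_all Z.zf_all)

theorem zd_all : Z.ZD (9 / 4) := Z.zd_of_sq (Z.sq_of_int6 Pool.Agent.MP_2a1f0e_nt.SQ.int6_all)

theorem dprime_all : DPrimeStmt := dprime sm_all zd_all

theorem long_all : LongStmt := long sm_all zd_all

theorem lprime_all : LPrimeStmt := lprime Z.mert_all

/-! ### the last step -/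

theorem end_all : EndStmt := by
  intro t z l θ h1 h2 hz hz' hl hθ hL
  have key : ∀ᶠ x : ℝ in atTop, ∀ n, S.Win x n → bf x (fr z) n = prm n := by
    filter_upwards [ev_two hz', ev_two (show (1 : ℝ) < 2 * z by linarith),
      ev_two (show (1 : ℝ) < 2 by norm_num), ev_two (show (0 : ℝ) < 1 by norm_num), ev_pos]
      with x a1 a2 a3 a4 hx n hn
    rw [Real.rpow_one] at a1 a2 a3 a4
    rw [Real.rpow_zero] at a4
    obtain ⟨w1, w2⟩ := hn
    have n1 : 1 < n := by exact_mod_cast (show (1 : ℝ) < n by linarith)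
    by_cases hp : n.Prime
    · rw [S.bf_of_mem ((S.mem_fr hx).2 ⟨by omega, by linarith,
        (S.rough_prime hp).2 (by linarith)⟩)]
      exact (if_pos hp).symm
    · rw [S.bf_of_not fun h => absurd (sq_lt (by linarith) n1 hp ((S.mem_fr hx).1 h).2.2)
        (by linarith)]
      exact (if_neg hp).symm
  have e0 : 0 < (1 - l) / 3 := by linarith
  have := fin t ((1 - l) / 3) θ (by linarith) (by linarith) e0 hθ (by
    filter_upwards [(hL.congr (g := fun _ => prm) key) _ e0, long_all _ e0] with x a1 a2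
    change _ ≤ SS x (x ^ (-t)) prm - SS x (DB x) prm at a1
    linarith)
  exact eventually_atTop.1 (tendsto_natCast_atTop_atTop.eventually this) |>.imp fun n₀ h n hn => by
    obtain ⟨p, p1, p2, p3⟩ := h n hn
    exact ⟨p, p1, by exact_mod_cast p2, p3⟩

/-! ### one block -/

/-- `β` times the upper density of a block at the size `β` -/
noncomputable def GB (B : Blk) (β : ℝ) : ℝ :=
  match B.b with
  | none => 1 + max 0 (Om (β / B.a - 1))
  | some c => (if β ≤ c then 1 else 0) + max 0 (Om (β / B.a - 1) - Om (max (β / c) 2 - 1))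

lemma bf_le {x : ℝ} {B : Blk} {n : ℕ} {y : ℝ} (h0 : 0 ≤ y) (h : B.Mem x n → 1 ≤ y) :
    bf x B n ≤ y := by
  by_cases h1 : B.Mem x n
  · rw [S.bf_of_mem h1]
    exact h h1
  · rw [S.bf_of_not h1]
    exact h0

lemma one_lt_of_mem {x : ℝ} (hx : 1 < x) {B : Blk} (hlo : 0 ≤ B.lo) {n : ℕ} (h : B.Mem x n) :
    1 < n := by
  exact_mod_cast (Real.one_le_rpow hx.le hlo).trans_lt h.2.1

/-- the density of a block that does not contain `1` -/
theorem dens_bf {B : Blk} {β₁ β₂ w : ℝ} (ha : 1 / 200 ≤ B.a) (hlo : 0 ≤ B.lo) (hw : 0 ≤ w)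
    (h : ∀ β, β₁ ≤ β → β ≤ β₂ → B.lo ≤ β → β ≤ B.hi → B.a ≤ β → GB B β ≤ w * β) :
    Dens (fun x => bf x B) β₁ β₂ w := by
  obtain ⟨lo, hi, a, b⟩ := B
  simp only at ha hlo h
  rcases b with _ | c
  · have m1 := le_max_left hi a
    have m2 := le_max_right hi a
    refine (dens_MM dconv lprime_all dprime_all (lo := lo) (hi := hi) (b := max hi a) ha m2 hw
      fun β h1 h2 h3 h4 h5 => ?_).mono ?_
    · have u2 : β / max hi a ≤ 2 := by
        rw [div_le_iff₀ (by linarith)]
        linarith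
      rw [if_pos (by linarith), max_eq_right u2, show (2 : ℝ) - 1 = 1 by norm_num, Om_one,
        sub_zero]
      exact h β h1 h2 h3 h4 h5
    · filter_upwards [ev_pos] with x hx n _ _
      refine bf_le (ind_nonneg _ _) fun hn => ?_
      have n1 := one_lt_of_mem hx (B := ⟨lo, hi, a, none⟩) hlo hn
      exact (ind_pos n1 ⟨⟨hn.2.1, hn.2.2.1⟩, hn.2.2.2.1, fun h6 => absurd
        ((rough_lt n1 h6).trans_le hn.2.2.1)
        (Real.rpow_le_rpow_of_exponent_le hx.le m1).not_gt⟩).ge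
  rcases lt_or_ge c a with hc | hc
  · refine (Dens.zero ?_).weak le_rfl le_rfl hw
    filter_upwards [ev_pos] with x hx n _ _
    exact bf_le le_rfl fun hn => absurd (S.Rough.anti hx.le hc.le hn.2.2.2.1) (hn.2.2.2.2 c rfl)
  refine (dens_MM dconv lprime_all dprime_all (lo := lo) (hi := hi) ha hc hw h).mono ?_
  filter_upwards [ev_pos] with x hx n _ _
  exact bf_le (ind_nonneg _ _) fun hn => (ind_pos (one_lt_of_mem hx (B := ⟨lo, hi, a, some c⟩)
    hlo hn) ⟨⟨hn.2.1, hn.2.2.1⟩, hn.2.2.2.1, hn.2.2.2.2 c rfl⟩).ge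

end Pool.Agent.MP_c853c5_nt.L
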