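import Pool.Agent.MP_c853c5_nt.L.MassN

/-!
The same bound, written with primitive operations.
-/

set_option autoImplicit false

namespace Pool.Agent.MP_c853c5_nt.L

open Pool.Agent.MP_c853c5_nt.S (bf Mass)

lemma brec_ble {α : Type} (x y : α) (a b : ℕ) :
    Bool.rec (motive := fun _ => α) y x (Nat.ble a b) = if a ≤ b then x else y := by
  by_cases h : a ≤ b
  · rw [if_pos h, Nat.ble_eq_true_of_le h]
  · rw [if_neg h, Bool.eq_false_iff.2 fun e => h (Nat.le_of_ble_eq_true e)]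

def cdF (a b : ℕ) : ℕ := Nat.succ (Nat.div a b)

lemma cdF_eq (a b : ℕ) : cdF a b = cd a b := rfl

def mx (a b : ℕ) : ℕ := Nat.add a (Nat.sub b a)

lemma mx_eq (a b : ℕ) : mx a b = max a b := by
  simp only [mx, Nat.add_eq, Nat.sub_eq]
  omega

def mn (a b : ℕ) : ℕ := Nat.sub a (Nat.sub a b)

lemma mn_eq (a b : ℕ) : mn a b = min a b := by
  simp only [mn, Nat.sub_eq]
  omega

def lgU0F (l u : ℕ) : ℕ :=
  cdF (Nat.mul VV (Nat.sub (Nat.mul u u) (Nat.mul l l))) (Nat.mul (Nat.mul 2 u) l)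

def lgUF (k : ℕ) : ℕ → ℕ → ℕ :=
  Nat.rec lgU0F (fun _ r l u => Bool.rec (motive := fun _ => ℕ)
    (Nat.add 95310200 (r (Nat.mul 11 l) (Nat.mul 10 u))) (lgU0F l u)
    (Nat.ble (Nat.mul 10 u) (Nat.mul 11 l))) k

lemma lgUF_eq (k : ℕ) : ∀ l u, lgUF k l u = lgU k l u := by
  induction k with
  | zero => exact fun _ _ => rfl
  | succ k ih =>
    intro l u
    rw [lgU, ← ih]
    exact brec_ble _ _ _ _

def lgL0F (l u : ℕ) : ℕ := Nat.div (Nat.mul VV (Nat.mul 2 (Nat.sub u l))) (Nat.add u l)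

def lgLF (k : ℕ) : ℕ → ℕ → ℕ :=
  Nat.rec lgL0F (fun _ r l u => Bool.rec (motive := fun _ => ℕ)
    (Nat.add 95310170 (r (Nat.mul 11 l) (Nat.mul 10 u))) (lgL0F l u)
    (Nat.ble (Nat.mul 10 u) (Nat.mul 11 l))) k

lemma lgLF_eq (k : ℕ) : ∀ l u, lgLF k l u = lgL k l u := by
  induction k with
  | zero => exact fun _ _ => rfl
  | succ k ih =>
    intro l u
    rw [lgL, ← ih]
    exact brec_ble _ _ _ _

def gUF (M a : ℕ) : ℕ :=
  Bool.rec (motive := fun _ => ℕ)
    (Bool.rec (motive := fun _ => ℕ) (cdF (Nat.mul (Nat.mul VV 709) M) (Nat.mul 1250 a))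
      (Nat.add VV (lgUF 8 a (Nat.sub M a))) (Nat.ble (Nat.mul 709 (Nat.sub M a)) (Nat.mul 1250 a)))
    VV (Nat.ble M (Nat.mul 2 a))

lemma gUF_eq (M a : ℕ) : gUF M a = gU M a := by
  rw [gUF, brec_ble, brec_ble, lgUF_eq]
  rfl

def oLF (m c : ℕ) : ℕ :=
  Bool.rec (motive := fun _ => ℕ)
    (Bool.rec (motive := fun _ => ℕ)
      (Nat.sub (Nat.div (Nat.mul (Nat.mul VV 709) (Nat.sub m c)) (Nat.mul 1250 c)) 433000000)
      (lgLF 8 c (Nat.sub m c)) (Nat.ble (Nat.mul 709 (Nat.sub m c)) (Nat.mul 1250 c)))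
    0 (Nat.ble m (Nat.mul 2 c))

lemma oLF_eq (m c : ℕ) : oLF m c = oL m c := by
  rw [oLF, brec_ble, brec_ble, lgLF_eq]
  rfl

def w0F (S a m M : ℕ) : ℕ :=
  Bool.rec (motive := fun _ => ℕ)
    (mn (mx (cdF (Nat.mul VV S) m) (cdF (Nat.mul (Nat.mul VV S) 709) (Nat.mul 1250 a)))
      (cdF (Nat.mul (gUF M a) S) m))
    (cdF (Nat.mul VV S) m) (Nat.ble M (Nat.mul 2 a))

lemma w0F_eq (S a m M : ℕ) : w0F S a m M = w0 S a m M := by
  rw [w0F, brec_ble, mn_eq, mx_eq, gUF_eq]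
  split_ifs with h
  · rw [w0, gU, if_pos (show M ≤ 2 * a from h)]
    exact (min_eq_right (le_max_left _ _)).symm
  · rfl

def qUF (m c : ℕ) : ℕ :=
  Bool.rec (motive := fun _ => ℕ) (mx 567200000 (cdF (Nat.mul VV c) (Nat.sub m c))) VV
    (Nat.ble m (Nat.mul 2 c))

lemma qUF_eq (m c : ℕ) : qUF m c = qU m c := by
  rw [qUF, brec_ble, mx_eq]
  rfl

def iF (m c : ℕ) : ℕ := Bool.rec (motive := fun _ => ℕ) 0 VV (Nat.ble m c)

def w1F (S a c m M : ℕ) : ℕ :=
  mn (cdF (Nat.mul (Nat.add (iF m c) (Nat.sub (Nat.sub (gUF M a) VV) (oLF m c))) S) m)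
    (Nat.add (cdF (Nat.mul (iF m c) S) m) (Bool.rec (motive := fun _ => ℕ)
      (cdF (Nat.mul (Nat.mul (qUF m c) S) (Nat.sub M (Nat.mul 2 a))) (Nat.mul a M))
      (cdF (Nat.mul (Nat.mul (qUF m c) S) (Nat.sub c a)) (Nat.mul a c)) (Nat.ble (Nat.mul 2 c) M)))

lemma w1F_eq (S a c m M : ℕ) : w1F S a c m M = w1 S a c m M := by
  rw [w1F, iF, brec_ble, brec_ble, mn_eq, gUF_eq, oLF_eq, qUF_eq]
  rfl

def wMF (S a : ℕ) (b : Option ℕ) (m M : ℕ) : ℕ :=
  Bool.rec (motive := fun _ => ℕ) 0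
    (Option.rec (motive := fun _ => ℕ) (w0F S a m M) (fun c => Bool.rec (motive := fun _ => ℕ)
      (w0F S a m M) (mn (w0F S a m M) (w1F S a c m M)) (Nat.ble a c)) b) (Nat.ble m M)

lemma wMF_eq (S a : ℕ) (b : Option ℕ) (m M : ℕ) : wMF S a b m M = wM S a b m M := by
  rw [wMF, brec_ble]
  unfold wM
  simp only [← not_le, ite_not]
  cases b with
  | none => simp only [w0F_eq]
  | some c => simp only [brec_ble, w0F_eq, w1F_eq, mn_eq]

def lgPF (l u : ℕ) : ℕ := Bool.rec (motive := fun _ => ℕ) (lgUF 60 l u) 0 (Nat.ble u l)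

lemma lgPF_eq (l u : ℕ) : lgPF l u = lgP l u := by
  rw [lgPF, brec_ble, lgUF_eq]
  rfl

def mu0F (S a : ℕ) (b : Option ℕ) (m u : ℕ) : ℕ :=
  Bool.rec (motive := fun _ => ℕ)
    (Bool.rec (motive := fun _ => ℕ) (cdF (Nat.mul (wMF S a b m u) (Nat.sub u m)) S)
      (Option.rec (motive := fun _ => ℕ) (lgPF m u) (fun c => lgPF m (mn u c)) b)
      (Nat.ble u (Nat.mul 2 a))) 0 (Nat.ble u m)

def muF (S a : ℕ) (b : Option ℕ) (l u : ℕ) : ℕ := mu0F S a b (mx l a) u

lemma muF_eq (S a : ℕ) (b : Option ℕ) (l u : ℕ) : muF S a b l u = muN S a b l u := by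
  rw [muF, mu0F, brec_ble, brec_ble, mx_eq, wMF_eq]
  cases b with
  | none => rw [lgPF_eq]; rfl
  | some c => simp only [lgPF_eq, mn_eq]; rfl

def cellsF (S a : ℕ) (b : Option ℕ) (hi h n : ℕ) : ℕ → List ℕ :=
  Nat.rec (fun _ => []) (fun _ r l => Bool.rec (motive := fun _ => List ℕ)
    (muF S a b l (Nat.add l h) :: r (Nat.add l h)) [muF S a b l hi] (Nat.ble hi (Nat.add l h))) n

lemma cellsF_eq (S a : ℕ) (b : Option ℕ) (hi h n : ℕ) :
    ∀ l, cellsF S a b hi h n l = cells S a b hi h n l := by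
  induction n with
  | zero => exact fun _ => rfl
  | succ n ih =>
    intro l
    rw [cells, ← ih, ← muF_eq, ← muF_eq]
    exact brec_ble _ _ _ _

def axpyF (a : ℕ) (v : List ℕ) : List ℕ → List ℕ :=
  List.rec (fun u => u) (fun c _ r u => List.rec (motive := fun _ => List ℕ)
    (Nat.mul a c :: r []) (fun d u _ => Nat.add (Nat.mul a c) d :: r u) u) v

lemma axpyF_eq (a : ℕ) (v : List ℕ) : ∀ u, axpyF a v u = axpy a v u := by
  induction v with
  | nil => exact fun _ => rfl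
  | cons c v ih =>
    intro u
    cases u <;> rw [axpy, ← ih] <;> rfl

def pmulF (v u : List ℕ) : List ℕ := List.rec [] (fun a _ r => axpyF a v (0 :: r)) u

lemma pmulF_eq (v u : List ℕ) : pmulF v u = pmul v u := by
  induction u with
  | nil => rfl
  | cons a u ih => rw [pmul, ← ih, ← axpyF_eq]; rfl

def lF (B : NB) : ℕ := mx B.lo B.a

lemma lF_eq (B : NB) : lF B = B.l := mx_eq _ _

def wdF (B : NB) : ℕ := Nat.sub B.hi (lF B)

lemma wdF_eq (B : NB) : wdF B = B.wd := by rw [wdF, lF_eq]; rfl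

def polyF (S h : ℕ) (L : List NB) : List ℕ :=
  List.rec [1] (fun B _ r => pmulF r (cellsF S B.a B.b B.hi h (cdF (wdF B) h) (lF B))) L

lemma polyF_eq (S h : ℕ) (L : List NB) : polyF S h L = poly S h L := by
  induction L with
  | nil => rfl
  | cons B L ih => rw [poly, ← ih, ← pmulF_eq, ← cellsF_eq, ← wdF_eq, ← lF_eq]; rfl

def baseF (L : List NB) : ℕ := List.rec 0 (fun B _ r => Nat.add (lF B) r) L

lemma baseF_eq (L : List NB) : baseF L = base L := by
  induction L with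
  | nil => rfl
  | cons B L ih => rw [base, ← ih, ← lF_eq]; rfl

def topsF (L : List NB) : ℕ := List.rec 0 (fun B _ r => Nat.add B.hi r) L

lemma topsF_eq (L : List NB) : topsF L = tops L := by
  induction L with
  | nil => rfl
  | cons B L ih => rw [tops, ← ih]; rfl

def sprF (h : ℕ) (L : List NB) : ℕ := List.rec 0 (fun B _ r => Nat.add (mn h (wdF B)) r) L

lemma sprF_eq (h : ℕ) (L : List NB) : sprF h L = spr h L := by
  induction L with
  | nil => rfl
  | cons B L ih => rw [spr, ← ih, ← wdF_eq, ← mn_eq]; rfl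

def wmaxF (L : List NB) : ℕ := List.rec 0 (fun B _ r => mx (wdF B) r) L

lemma wmaxF_eq (L : List NB) : wmaxF L = wmax L := by
  induction L with
  | nil => rfl
  | cons B L ih => rw [wmax, ← ih, ← wdF_eq, ← mx_eq]; rfl

def powF (L : List NB) : ℕ := List.rec 1 (fun _ _ r => Nat.mul r VV) L

lemma powF_eq (L : List NB) : powF L = VV ^ L.length := by
  induction L with
  | nil => rfl
  | cons B L ih => rw [List.length_cons, pow_succ, ← ih]; rfl

def finF (S : ℕ) (B : NB) (h r : ℕ) (v : List ℕ) : ℕ → ℕ :=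
  List.rec (fun _ => 0) (fun c _ k p => Nat.add (Nat.mul c (wMF S B.a B.b
    (mx (Nat.sub S (Nat.add p r)) (lF B)) (mn (Nat.sub S p) B.hi))) (k (Nat.add p h))) v

lemma finF_eq (S : ℕ) (B : NB) (h r : ℕ) (v : List ℕ) : ∀ p, finF S B h r v p = finN S B h r v p := by
  induction v with
  | nil => exact fun _ => rfl
  | cons c v ih => intro p; rw [finN, ← ih, ← wMF_eq, ← mx_eq, ← mn_eq, ← lF_eq]; rfl

def core0F (S h : ℕ) (B : NB) (L : List NB) : ℕ :=
  cdF (finF S B h (sprF h L) (polyF S h L) (baseF L)) (powF L)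

def coreF (S n : ℕ) (B : NB) (L : List NB) : ℕ :=
  Bool.rec (motive := fun _ => ℕ) 0 (core0F S (cdF (wmaxF L) n) B L)
    (Nat.ble S (Nat.add B.hi (topsF L)))

lemma coreF_eq (S n : ℕ) (B : NB) (L : List NB) : coreF S n B L = core S n B L := by
  rw [coreF, brec_ble, core0F, finF_eq, sprF_eq, polyF_eq, baseF_eq, powF_eq, wmaxF_eq, topsF_eq,
    core]
  simp only [← not_le, ite_not]
  rfl

def pickF (S n : ℕ) (L : List NB) : NB → List NB → ℕ :=
  List.rec (fun B acc => coreF S n B acc) (fun C _ r B acc => Bool.rec (motive := fun _ => ℕ)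
    (r C (B :: acc)) (r B (C :: acc)) (Nat.ble (wdF C) (wdF B))) L

lemma pickF_eq (S n : ℕ) (L : List NB) :
    ∀ B acc, pickF S n L B acc = core S n (pick B acc L).1 (pick B acc L).2 := by
  induction L with
  | nil => exact fun _ _ => coreF_eq _ _ _ _
  | cons C L ih =>
    intro B acc
    refine (brec_ble _ _ _ _).trans ?_
    rw [pick, wdF_eq, wdF_eq]
    split_ifs
    · exact ih _ _
    · exact ih _ _

def goF (S n : ℕ) (L : List NB) : List NB → ℕ :=
  List.rec (fun acc => List.rec (motive := fun _ => ℕ) 0 (fun B acc _ => pickF S n acc B []) acc)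
    (fun B _ r acc => Bool.rec (motive := fun _ => ℕ) (r (B :: acc))
      (Nat.add (Option.rec (motive := fun _ => ℕ) (r acc) (fun _ => 0) B.b)
        (r (⟨false, 0, B.hi, B.a, B.b⟩ :: acc))) B.neg) L

lemma goF_eq (S n : ℕ) (L : List NB) : ∀ acc, goF S n L acc = go S n L acc := by
  induction L with
  | nil =>
    intro acc
    cases acc with
    | nil => rfl
    | cons B acc => exact pickF_eq _ _ _ _ _
  | cons B L ih =>
    intro acc
    obtain ⟨ng, lo, hi, a, b⟩ := B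
    rw [go, ← ih, ← ih, ← ih]
    cases ng <;> cases b <;> rfl

/-- the fast form of `massN` -/
def massF (S n : ℕ) (L : List NB) : ℕ := goF S n L []

theorem massF_eq (S n : ℕ) (L : List NB) : massF S n L = massN S n L := goF_eq _ _ _ _

theorem massF_sound {S : ℕ} (hS : 0 < S) (n : ℕ) (L : List NB) (h : ∀ B ∈ L, S ≤ 200 * B.a) :
    Mass (fun x => (L.map fun B => bf x (B.blk S)).prod) (massF S n L / VV) :=
  massF_eq S n L ▸ massN_sound hS n L h

end Pool.Agent.MP_c853c5_nt.L
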