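import Pool.Agent.MP_c853c5_nt.L.Om

/-!
Natural number bounds for logarithms and for the density of a block.
-/

set_option autoImplicit false

namespace Pool.Agent.MP_c853c5_nt.L

/-- the scale of the values -/
def VV : ℕ := 1000000000

lemma VV_eq : (VV : ℝ) = 1000000000 := by norm_num [VV]

lemma VV_pos : (0 : ℝ) < VV := by norm_num [VV]

/-- division rounded up -/
def cd (a b : ℕ) : ℕ := a / b + 1

lemma le_cd (a b : ℕ) : (a : ℝ) / b ≤ cd a b := by
  rcases Nat.eq_zero_or_pos b with rfl | h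
  · simp
  · rw [div_le_iff₀ (by exact_mod_cast h)]
    have : a ≤ cd a b * b := by
      have := Nat.lt_div_mul_add (a := a) h
      unfold cd
      nlinarith
    exact_mod_cast this

lemma sub_le_cast (a b : ℕ) : (a : ℝ) - b ≤ (a - b : ℕ) := by
  rcases le_total b a with h | h
  · rw [Nat.cast_sub h]
  · have : (a : ℝ) ≤ b := by exact_mod_cast h
    linarith [Nat.cast_nonneg (α := ℝ) (a - b)]

lemma log_tenth : 0.09531017 ≤ Real.log (11 / 10) ∧ Real.log (11 / 10) ≤ 0.0953102 := by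
  have h1 := Real.sum_range_le_log_div (x := 1 / 21) (by norm_num) (by norm_num) 3
  have h2 := Real.log_div_le_sum_range_add (x := 1 / 21) (by norm_num) (by norm_num) 3
  simp only [Finset.sum_range_succ, Finset.sum_range_zero] at h1 h2
  norm_num at h1 h2 ⊢
  constructor <;> linarith

lemma log_cc_ge : 0.567 ≤ -Real.log cc := by
  have h1 := Real.sum_range_le_log_div (x := 541 / 1959) (by norm_num) (by norm_num) 3
  simp only [Finset.sum_range_succ, Finset.sum_range_zero] at h1
  rw [← Real.log_inv, cc]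
  norm_num at h1 ⊢
  linarith

lemma log_step {l u : ℝ} (hl : 0 < l) (hu : 0 < u) :
    Real.log (u / l) = Real.log (11 / 10) + Real.log (10 * u / (11 * l)) := by
  rw [← Real.log_mul (by norm_num) (by positivity)]
  congr 1
  field_simp

def lgU0 (l u : ℕ) : ℕ := cd (VV * (u * u - l * l)) (2 * u * l)

lemma lgU0_ge {l u : ℕ} (hl : 0 < l) (h : l ≤ u) : VV * Real.log ((u : ℝ) / l) ≤ lgU0 l u := by
  have l0 : (0 : ℝ) < l := by exact_mod_cast hl
  have h' : (l : ℝ) ≤ u := by exact_mod_cast h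
  have u0 : (0 : ℝ) < u := by linarith
  have h1 : Real.log ((u : ℝ) / l) ≤ Real.sinh (Real.log ((u : ℝ) / l)) :=
    Real.self_le_sinh_iff.2 (Real.log_nonneg ((one_le_div l0).2 h'))
  rw [Real.sinh_log (by positivity)] at h1
  refine (mul_le_mul_of_nonneg_left h1 VV_pos.le).trans (le_of_eq_of_le ?_ (le_cd _ _))
  rw [Nat.cast_mul, Nat.cast_sub (Nat.mul_le_mul h h)]
  push_cast
  field_simp

/-- an upper bound for `log (u / l)` -/
def lgU : ℕ → ℕ → ℕ → ℕ
  | 0, l, u => lgU0 l u
  | k + 1, l, u => if 10 * u ≤ 11 * l then lgU0 l u else 95310200 + lgU k (11 * l) (10 * u)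

lemma lgU_ge (k : ℕ) : ∀ {l u : ℕ}, 0 < l → l ≤ u → VV * Real.log ((u : ℝ) / l) ≤ lgU k l u := by
  induction k with
  | zero => exact lgU0_ge
  | succ k ih =>
    intro l u hl h
    unfold lgU
    split_ifs with e
    · exact lgU0_ge hl h
    · have h1 := ih (l := 11 * l) (u := 10 * u) (by omega) (by omega)
      rw [log_step (by exact_mod_cast hl) (by exact_mod_cast hl.trans_le h)]
      push_cast at h1 ⊢
      rw [VV_eq] at h1 ⊢
      linarith [log_tenth.2]

def lgL0 (l u : ℕ) : ℕ := VV * (2 * (u - l)) / (u + l)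

lemma lgL0_le {l u : ℕ} (hl : 0 < l) (h : l ≤ u) : lgL0 l u ≤ VV * Real.log ((u : ℝ) / l) := by
  have l0 : (0 : ℝ) < l := by exact_mod_cast hl
  have h' : (l : ℝ) ≤ u := by exact_mod_cast h
  have h1 := Real.le_log_one_add_of_nonneg (x := ((u : ℝ) - l) / l) (div_nonneg (by linarith) l0.le)
  rw [show 1 + ((u : ℝ) - l) / l = u / l by field_simp; ring] at h1
  refine Nat.cast_div_le.trans (le_of_eq_of_le ?_ (mul_le_mul_of_nonneg_left h1 VV_pos.le))
  have : 0 < (u : ℝ) + l := by linarith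
  have e : ((u : ℝ) - l) / l + 2 = (u + l) / l := by field_simp; ring
  rw [Nat.cast_mul, Nat.cast_mul, Nat.cast_sub h, e]
  push_cast
  field_simp

/-- a lower bound for `log (u / l)` -/
def lgL : ℕ → ℕ → ℕ → ℕ
  | 0, l, u => lgL0 l u
  | k + 1, l, u => if 10 * u ≤ 11 * l then lgL0 l u else 95310170 + lgL k (11 * l) (10 * u)

lemma lgL_le (k : ℕ) : ∀ {l u : ℕ}, 0 < l → l ≤ u → lgL k l u ≤ VV * Real.log ((u : ℝ) / l) := by
  induction k with
  | zero => exact lgL0_le
  | succ k ih =>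
    intro l u hl h
    unfold lgL
    split_ifs with e
    · exact lgL0_le hl h
    · have h1 := ih (l := 11 * l) (u := 10 * u) (by omega) (by omega)
      rw [log_step (by exact_mod_cast hl) (by exact_mod_cast hl.trans_le h)]
      push_cast at h1 ⊢
      rw [VV_eq] at h1 ⊢
      linarith [log_tenth.1]

/-- an upper bound for `1 + max 0 (Om (M / a - 1))` -/
def gU (M a : ℕ) : ℕ :=
  if M ≤ 2 * a then VV else if 709 * (M - a) ≤ 1250 * a then VV + lgU 8 a (M - a)
  else cd (VV * 709 * M) (1250 * a)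

lemma gU_ge {M a : ℕ} (ha : 0 < a) {y : ℝ} (hy : y ≤ M) :
    VV * (1 + max 0 (Om (y / a - 1))) ≤ gU M a := by
  have a0 : (0 : ℝ) < a := by exact_mod_cast ha
  have h1 : Om (y / a - 1) ≤ Om ((M : ℝ) / a - 1) := Om_mono (by gcongr)
  refine (mul_le_mul_of_nonneg_left (add_le_add_right (max_le_max_left 0 h1) 1) VV_pos.le).trans ?_
  unfold gU
  split_ifs with e e'
  · have e1 : (M : ℝ) ≤ 2 * a := by exact_mod_cast e
    have : Om ((M : ℝ) / a - 1) ≤ 0 := Om_one ▸ Om_mono (by
      rw [sub_le_iff_le_add, div_le_iff₀ a0]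
      linarith)
    rw [max_eq_left this]
    simp
  · have h2 := lgU_ge 8 ha (show a ≤ M - a by omega)
    have e1 : (709 : ℝ) * ((M - a : ℕ) : ℝ) ≤ 1250 * a := by exact_mod_cast e'
    have e2 : (a : ℝ) ≤ ((M - a : ℕ) : ℝ) := by exact_mod_cast (show a ≤ M - a by omega)
    have e3 : (M : ℝ) / a - 1 = ((M - a : ℕ) : ℝ) / a := by
      rw [Nat.cast_sub (by omega)]
      field_simp
    rw [e3]
    generalize ((M - a : ℕ) : ℝ) = z at *
    have z0 : 0 < z := by linarith
    have h3 := Om_le (z / a) (q := a / z) (by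
      rw [cc, div_le_div_iff₀ (by norm_num) z0]
      linarith) ((div_le_one z0).2 e2)
    rw [show (a : ℝ) / z * (z / a) = 1 by field_simp, ← inv_div z a, Real.log_inv] at h3
    have h4 : 0 ≤ Real.log (z / a) := Real.log_nonneg ((one_le_div a0).2 e2)
    have h5 : max 0 (Om (z / a)) ≤ Real.log (z / a) := max_le h4 (by linarith)
    push_cast
    nlinarith [VV_pos]
  · have e1 : (2 : ℝ) * a ≤ M := by exact_mod_cast (show 2 * a ≤ M by omega)
    have h2 : 0 ≤ Om ((M : ℝ) / a - 1) := Om_one ▸ Om_mono (by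
      rw [le_sub_iff_add_le, le_div_iff₀ a0]
      linarith)
    rw [max_eq_right h2]
    refine (mul_le_mul_of_nonneg_left (Om_step _) VV_pos.le).trans (le_of_eq_of_le ?_ (le_cd _ _))
    rw [cc]
    push_cast
    field_simp

/-- a lower bound for `Om (max (m / c) 2 - 1)` -/
def oL (m c : ℕ) : ℕ :=
  if m ≤ 2 * c then 0 else if 709 * (m - c) ≤ 1250 * c then lgL 8 c (m - c)
  else VV * 709 * (m - c) / (1250 * c) - 433000000

lemma oL_le {m c : ℕ} (hc : 0 < c) {y : ℝ} (hy : (m : ℝ) ≤ y) :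
    oL m c ≤ VV * Om (max (y / c) 2 - 1) := by
  have c0 : (0 : ℝ) < c := by exact_mod_cast hc
  have h0 : 0 ≤ Om (max (y / c) 2 - 1) := Om_one ▸ Om_mono (by linarith [le_max_right (y / c) 2])
  unfold oL
  split_ifs with e e'
  · simpa using mul_nonneg VV_pos.le h0
  all_goals
    have e3 : ((m - c : ℕ) : ℝ) / c ≤ max (y / c) 2 - 1 := by
      rw [Nat.cast_sub (by omega), sub_div, div_self c0.ne']
      have : (m : ℝ) / c ≤ y / c := by gcongr
      linarith [le_max_left (y / c) 2]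
    have e2 : (c : ℝ) ≤ ((m - c : ℕ) : ℝ) := by exact_mod_cast (show c ≤ m - c by omega)
  · exact (lgL_le 8 hc (show c ≤ m - c by omega)).trans (mul_le_mul_of_nonneg_left
      ((log_le_Om (div_pos (by linarith) c0)).trans (Om_mono e3)) VV_pos.le)
  · have e1 : (1250 : ℝ) * c ≤ 709 * ((m - c : ℕ) : ℝ) := by exact_mod_cast (not_le.1 e').le
    rcases le_total (VV * 709 * (m - c) / (1250 * c)) 433000000 with g | g
    · rw [Nat.sub_eq_zero_of_le g]
      simpa using mul_nonneg VV_pos.le h0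
    rw [Nat.cast_sub g]
    have h1 : ((VV * 709 * (m - c) / (1250 * c) : ℕ) : ℝ) ≤ VV * (cc * (((m - c : ℕ) : ℝ) / c)) := by
      refine Nat.cast_div_le.trans_eq ?_
      rw [Nat.cast_mul, cc]
      push_cast
      field_simp
    generalize ((m - c : ℕ) : ℝ) = z at *
    have z0 : 0 < z := by linarith
    have h2 : qq (z / c) = cc := by
      unfold qq
      rw [max_eq_left ((one_le_div c0).2 e2), max_eq_left]
      rw [one_div_div, cc, div_le_div_iff₀ z0 (by norm_num)]
      linarith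
    have h3 : Om (z / c) = cc * (z / c) - 1 - Real.log cc := by rw [Om, h2]
    have h4 := Om_mono e3
    rw [VV_eq] at h1 ⊢
    push_cast
    linarith [log_cc_ge]

lemma of_cd {N S m : ℕ} {X y : ℝ} (h : VV * X ≤ N) (hm : 0 < m) (hy : (m : ℝ) ≤ y) :
    VV * S * X ≤ cd (N * S) m * y := by
  have m0 : (0 : ℝ) < m := by exact_mod_cast hm
  have h1 := le_cd (N * S) m
  rw [div_le_iff₀ m0] at h1
  push_cast at h1
  have h2 : (cd (N * S) m : ℝ) * m ≤ cd (N * S) m * y := by gcongr
  nlinarith [mul_le_mul_of_nonneg_right h (Nat.cast_nonneg (α := ℝ) S)]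

/-- the density of rough numbers of size in `[m, M]` -/
def w0 (S a m M : ℕ) : ℕ :=
  min (max (cd (VV * S) m) (cd (VV * S * 709) (1250 * a))) (cd (gU M a * S) m)

lemma w0_ge {S a m M : ℕ} (ha : 0 < a) (hm : 0 < m) {y : ℝ} (h1 : (m : ℝ) ≤ y) (h2 : y ≤ M) :
    VV * S * (1 + max 0 (Om (y / a - 1))) ≤ w0 S a m M * y := by
  have a0 : (0 : ℝ) < a := by exact_mod_cast ha
  have y0 : 0 ≤ y := (Nat.cast_nonneg m).trans h1
  unfold w0
  rw [Nat.cast_min, min_mul_of_nonneg _ _ y0, Nat.cast_max, max_mul_of_nonneg _ _ y0]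
  refine le_min ?_ (of_cd (gU_ge ha h2) hm h1)
  rcases le_total 0 (Om (y / a - 1)) with e | e
  · rw [max_eq_right e]
    refine le_max_of_le_right ((mul_le_mul_of_nonneg_left (Om_step _) (by positivity)).trans
      (le_of_eq_of_le ?_ (mul_le_mul_of_nonneg_right (le_cd _ _) y0)))
    rw [cc]
    push_cast
    field_simp
  · rw [max_eq_left e]
    exact le_max_of_le_left (of_cd (by simp) hm h1)

def qU (m c : ℕ) : ℕ := if m ≤ 2 * c then VV else max 567200000 (cd (VV * c) (m - c))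

lemma qU_ge {m c : ℕ} (hc : 0 < c) {y : ℝ} (hy : (m : ℝ) ≤ y) :
    VV * qq (max (y / c) 2 - 1) ≤ qU m c := by
  have c0 : (0 : ℝ) < c := by exact_mod_cast hc
  unfold qU
  split_ifs with e
  · simpa using mul_le_mul_of_nonneg_left (qq_le_one _) VV_pos.le
  have e3 : ((m - c : ℕ) : ℝ) / c ≤ max (y / c) 2 - 1 := by
    rw [Nat.cast_sub (by omega), sub_div, div_self c0.ne']
    have : (m : ℝ) / c ≤ y / c := by gcongr
    linarith [le_max_left (y / c) 2]
  have e2 : (c : ℝ) ≤ ((m - c : ℕ) : ℝ) := by exact_mod_cast (show c ≤ m - c by omega)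
  refine (mul_le_mul_of_nonneg_left (qq_anti e3) VV_pos.le).trans ?_
  unfold qq
  rw [max_eq_left ((one_le_div c0).2 e2), mul_max_of_nonneg _ _ VV_pos.le, Nat.cast_max]
  refine max_le_max (by norm_num [cc, VV]) (le_of_eq_of_le ?_ (le_cd _ _))
  rw [one_div_div, Nat.cast_mul, mul_div_assoc]

/-- the density of numbers of size in `[m, M]` with least prime factor in `(a, c]` -/
def w1 (S a c m M : ℕ) : ℕ :=
  min (cd (((if m ≤ c then VV else 0) + (gU M a - VV - oL m c)) * S) m)
    (cd ((if m ≤ c then VV else 0) * S) m +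
      if 2 * c ≤ M then cd (qU m c * S * (c - a)) (a * c) else cd (qU m c * S * (M - 2 * a)) (a * M))

lemma w1_ge {S a c m M : ℕ} (ha : 0 < a) (hc : a ≤ c) (hm : 0 < m) {y : ℝ} (h1 : (m : ℝ) ≤ y)
    (h2 : y ≤ M) : VV * S * ((if y ≤ c then 1 else 0) +
      max 0 (Om (y / a - 1) - Om (max (y / c) 2 - 1))) ≤ w1 S a c m M * y := by
  have a0 : (0 : ℝ) < a := by exact_mod_cast ha
  have ac : (a : ℝ) ≤ c := by exact_mod_cast hc
  have c0 : (0 : ℝ) < c := by linarith
  have m0 : (0 : ℝ) < m := by exact_mod_cast hm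
  have y0 : 0 < y := by linarith
  have M0 : (0 : ℝ) < M := by linarith
  have hi : VV * (if y ≤ c then (1 : ℝ) else 0) ≤ ((if m ≤ c then VV else 0 : ℕ) : ℝ) := by
    split_ifs with e e'
    · simp
    · exact absurd (by exact_mod_cast h1.trans e) e'
    · simp
    · simp
  unfold w1
  rw [Nat.cast_min, min_mul_of_nonneg _ _ y0.le]
  refine le_min (of_cd ?_ hm h1) ?_
  · rw [mul_add, Nat.cast_add, mul_max_of_nonneg _ _ VV_pos.le, mul_zero]
    refine add_le_add hi (max_le (Nat.cast_nonneg _) ?_)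
    have g1 := gU_ge ha h2
    have g2 := oL_le (ha.trans_le hc) h1
    have g3 := mul_le_mul_of_nonneg_left (le_max_right 0 (Om (y / a - 1))) VV_pos.le
    linarith [sub_le_cast (gU M a) VV, sub_le_cast (gU M a - VV) (oL m c)]
  rw [mul_add, Nat.cast_add, add_mul]
  refine add_le_add (of_cd hi hm h1) ?_
  have key : ∀ p q : ℕ, y / a - max (y / c) 2 ≤ p / q * y →
      VV * S * max 0 (Om (y / a - 1) - Om (max (y / c) 2 - 1)) ≤ cd (qU m c * S * p) q * y := by
    intro p q h
    have g0 : 0 ≤ (p : ℝ) / q * y := by positivity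
    have g1 := Om_sub_le (y / a - 1) (max (y / c) 2 - 1)
    have g2 := qq_pos (max (y / c) 2 - 1)
    have g3 : max 0 (Om (y / a - 1) - Om (max (y / c) 2 - 1)) ≤
        qq (max (y / c) 2 - 1) * (p / q * y) :=
      max_le (by positivity) (g1.trans (mul_le_mul_of_nonneg_left (by linarith) g2.le))
    have g4 := mul_le_mul_of_nonneg_right (qU_ge (ha.trans_le hc) h1)
      (show 0 ≤ S * ((p : ℝ) / q * y) by positivity)
    refine (mul_le_mul_of_nonneg_left g3 (by positivity)).trans ((le_of_eq_of_le (by ring) g4).trans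
      (le_of_eq_of_le ?_ (mul_le_mul_of_nonneg_right (le_cd _ _) y0.le)))
    push_cast
    ring
  split_ifs with e
  · refine key _ _ ?_
    rw [Nat.cast_sub hc, Nat.cast_mul, show ((c : ℝ) - a) / (a * c) * y = y / a - y / c by
      field_simp]
    linarith [le_max_left (y / c) 2]
  · refine key _ _ ?_
    have g1 := sub_le_cast M (2 * a)
    have g2 : ((M : ℝ) - 2 * a) / (a * M) * y ≤ ((M - 2 * a : ℕ) : ℝ) / ((a * M : ℕ) : ℝ) * y := by
      push_cast at g1 ⊢
      gcongr
    rw [show ((M : ℝ) - 2 * a) / (a * M) * y = y / a - 2 * (y / M) by field_simp] at g2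
    linarith [le_max_right (y / c) 2, (div_le_one M0).2 h2]

end Pool.Agent.MP_c853c5_nt.L
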